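import Pool.Agent.MP_d80aff_gt.Defs

open Set Topology Filter

namespace Pool.MPd80aff

lemma isBeta_of_ext {Y K : Type} [TopologicalSpace Y] [TopologicalSpace K] [CompactSpace K]
    [T2Space K] (v : Y → K) (hv : Continuous v) (hd : DenseRange v)
    (hext : ∀ ψ : Y → ℝ, Continuous ψ → (∀ y, ψ y ∈ Icc (0:ℝ) 1) →
      ∃ φ : K → ℝ, Continuous φ ∧ ∀ y, φ (v y) = ψ y) : IsBeta v := by
  have hΦc : Continuous (stoneCechExtend hv) := continuous_stoneCechExtend hv
  have hΦu : ∀ y, stoneCechExtend hv (stoneCechUnit y) = v y := fun y =>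
    congrFun (stoneCechExtend_extends hv) y
  have hsurj : Function.Surjective (stoneCechExtend hv) := by
    rw [← range_eq_univ]
    have hcl : IsClosed (range (stoneCechExtend hv)) := (isCompact_range hΦc).isClosed
    have hsub : range v ⊆ range (stoneCechExtend hv) := by
      rintro _ ⟨y, rfl⟩; exact ⟨_, hΦu y⟩
    have := hcl.closure_subset_iff.2 hsub
    rw [hd.closure_range] at this
    exact univ_subset_iff.1 this
  have hinj : Function.Injective (stoneCechExtend hv) := by
    intro s t hst
    by_contra hne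
    obtain ⟨f, hf0, hf1, hf2⟩ := exists_continuous_zero_one_of_isClosed
      (isClosed_singleton (x := s)) (isClosed_singleton (x := t))
      (by simpa using hne)
    obtain ⟨φ, hφc, hφ⟩ := hext (fun y => f (stoneCechUnit y))
      (f.continuous.comp continuous_stoneCechUnit) (fun y => hf2 _)
    have heq : (fun z => φ (stoneCechExtend hv z)) = fun z => f z := by
      apply denseRange_stoneCechUnit.equalizer (hφc.comp hΦc) f.continuous
      funext y
      simp only [Function.comp]
      rw [hΦu, hφ]
    have h1 : φ (stoneCechExtend hv s) = f s := congrFun heq s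
    have h2 : φ (stoneCechExtend hv t) = f t := congrFun heq t
    rw [hst, h2] at h1
    rw [hf0 rfl, hf1 rfl] at h1
    simp at h1
  refine ⟨Continuous.homeoOfEquivCompactToT2 (f := Equiv.ofBijective _ ⟨hinj, hsurj⟩) hΦc, ?_⟩
  intro y
  exact hΦu y

lemma ext_of_isBeta {Y K : Type} [TopologicalSpace Y] [TopologicalSpace K] {v : Y → K}
    (h : IsBeta v) (ψ : Y → ℝ) (hψ : Continuous ψ) (h01 : ∀ y, ψ y ∈ Icc (0:ℝ) 1) :
    ∃ φ : K → ℝ, Continuous φ ∧ ∀ y, φ (v y) = ψ y := by
  obtain ⟨Φ, hΦ⟩ := h
  let ψ' : Y → Icc (0:ℝ) 1 := fun y => ⟨ψ y, h01 y⟩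
  have hψ' : Continuous ψ' := hψ.subtype_mk _
  let θ : StoneCech Y → Icc (0:ℝ) 1 := stoneCechExtend hψ'
  have hθ : Continuous θ := continuous_stoneCechExtend hψ'
  have hθu : ∀ y, θ (stoneCechUnit y) = ψ' y := fun y => congrFun (stoneCechExtend_extends hψ') y
  refine ⟨fun k => (θ (Φ.symm k) : ℝ),
    continuous_subtype_val.comp (hθ.comp Φ.symm.continuous), ?_⟩
  intro y
  change (θ (Φ.symm (v y)) : ℝ) = ψ y
  rw [← hΦ, Φ.symm_apply_apply, hθu]

/-- A class of functions closed under countable operations and local. -/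
structure GoodClass {F : Type} [TopologicalSpace F] (G : Set (F → ℝ)) : Prop where
  zero : (fun _ => (0:ℝ)) ∈ G
  op : ∀ (h : ℕ → F → ℝ), (∀ n, Continuous (h n)) → (∀ n, h n ∈ G) → ∀ g : F → ℝ,
    (∀ x y, (∀ n, h n x = h n y) → g x = g y) → g ∈ G
  loc : ∀ h : F → ℝ, Continuous h → (∀ x, ∃ U ∈ 𝓝 x, ∃ g ∈ G, ∀ y ∈ U, h y = g y) → h ∈ G

lemma GoodClass.op' {F : Type} [TopologicalSpace F] {G : Set (F → ℝ)} (hG : GoodClass G)
    {ι : Type} [Countable ι] (h : ι → F → ℝ) (hc : ∀ n, Continuous (h n)) (hm : ∀ n, h n ∈ G)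
    (g : F → ℝ) (hg : ∀ x y, (∀ n, h n x = h n y) → g x = g y) : g ∈ G := by
  rcases isEmpty_or_nonempty ι with hι | hι
  · exact hG.op (fun _ _ => 0) (fun _ => continuous_const) (fun _ => hG.zero) g
      fun x y _ => hg x y fun n => (hι.false n).elim
  · obtain ⟨f, hf⟩ := exists_surjective_nat ι
    refine hG.op (fun n => h (f n)) (fun n => hc _) (fun n => hm _) g fun x y hxy => hg x y ?_
    intro n
    obtain ⟨m, rfl⟩ := hf n
    exact hxy m

/-- The compactification determined by a class of good functions on a subspace. -/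
structure GComp {P F : Type} [TopologicalSpace P] [TopologicalSpace F] (j : F → P)
    (G : Set (F → ℝ)) (K : Type) [TopologicalSpace K] (i : P → K) : Prop where
  emb : IsEmbedding i
  dense : DenseRange i
  ext : ∀ A : P → ℝ, Continuous A → (∀ p, A p ∈ Icc (0:ℝ) 1) → (fun y => A (j y)) ∈ G →
    ∃ φ : K → ℝ, Continuous φ ∧ ∀ p, φ (i p) = A p
  good : ∀ φ : K → ℝ, Continuous φ → (fun y => φ (i (j y))) ∈ G

/-- Largeness. -/
lemma GComp.large {P F : Type} [TopologicalSpace P] [TopologicalSpace F] {j : F → P}
    (hj : Continuous j) {G : Set (F → ℝ)} (hG : GoodClass G) {K : Type} [TopologicalSpace K]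
    [CompactSpace K] [T2Space K] {i : P → K} (h : GComp j G K i) : IsLarge i := by
  intro V hV hi
  have hiV : ∀ p, i p ∈ V := fun p => hi ⟨p, rfl⟩
  have hdV : DenseRange (fun p => (⟨i p, hiV p⟩ : V)) := by
    have h1 : Dense ((Subtype.val : V → K) ⁻¹' (range i)) :=
      h.dense.preimage hV.isOpenMap_subtype_val
    refine h1.mono ?_
    rintro ⟨x, hx⟩ ⟨p, hp⟩
    exact ⟨p, Subtype.ext hp⟩
  apply isBeta_of_ext _ continuous_subtype_val
  · have : DenseRange (i) := h.dense
    refine this.mono ?_
    rintro _ ⟨p, rfl⟩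
    exact ⟨⟨i p, hiV p⟩, rfl⟩
  intro ψ hψ h01
  let A : P → ℝ := fun p => ψ ⟨i p, hiV p⟩
  have hAc : Continuous A := hψ.comp (h.emb.continuous.subtype_mk _)
  have hAG : (fun y => A (j y)) ∈ G := by
    apply hG.loc _ (hAc.comp hj)
    intro x
    have hx : V ∈ 𝓝 (i (j x)) := hV.mem_nhds (hiV _)
    obtain ⟨N, hN1, hN2, hN3⟩ := exists_mem_nhds_isClosed_subset hx
    let f : C(N, ℝ) := ⟨fun n => ψ ⟨n.1, hN3 n.2⟩, hψ.comp (continuous_subtype_val.subtype_mk _)⟩
    obtain ⟨g, hg⟩ := ContinuousMap.exists_restrict_eq hN2 f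
    refine ⟨(fun y => i (j y)) ⁻¹' N, ?_, fun y => g (i (j y)), h.good g g.continuous, ?_⟩
    · exact (h.emb.continuous.comp hj).continuousAt.preimage_mem_nhds hN1
    · intro y hy
      have := congrArg (fun F : C(N, ℝ) => F ⟨i (j y), hy⟩) hg
      simp only [ContinuousMap.restrict_apply] at this
      change A (j y) = g (i (j y))
      rw [this]
      rfl
  obtain ⟨φ, hφc, hφ⟩ := h.ext A hAc (fun p => h01 _) hAG
  refine ⟨φ, hφc, ?_⟩
  have : (fun v : V => φ v.1) = ψ := by
    apply hdV.equalizer (hφc.comp continuous_subtype_val) hψ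
    funext p
    exact hφ p
  intro y
  exact congrFun this y

/-- Not the Stone-Cech compactification. -/
lemma GComp.not_isBeta {P F : Type} [TopologicalSpace P] [TopologicalSpace F] {j : F → P}
    {G : Set (F → ℝ)} {K : Type} [TopologicalSpace K]
    {i : P → K} (h : GComp j G K i) (A : P → ℝ) (hA : Continuous A)
    (h01 : ∀ p, A p ∈ Icc (0:ℝ) 1) (hbad : (fun y => A (j y)) ∉ G) : ¬ IsBeta i := by
  intro hb
  obtain ⟨φ, hφc, hφ⟩ := ext_of_isBeta hb A hA h01
  apply hbad
  have := h.good φ hφc
  simpa only [hφ] using this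

lemma isGδ_zero {K : Type} [TopologicalSpace K] {φ : K → ℝ} (hφ : Continuous φ) (c : ℝ) :
    IsGδ {k | φ k = c} := by
  have : {k | φ k = c} = φ ⁻¹' {c} := rfl
  rw [this]
  exact (isClosed_singleton.isGδ).preimage hφ

/-- `G_δ`-closedness. -/
lemma GComp.gdelta {I F : Type} [TopologicalSpace F] {j : F → (I → ℝ)}
    {G : Set (F → ℝ)} (hG : GoodClass G) {K : Type} [TopologicalSpace K]
    [CompactSpace K] [T2Space K] {i : (I → ℝ) → K} (h : GComp j G K i) (hj : Continuous j)
    (hGd : ∀ U : Ultrafilter F, (∃ x, (U : Filter F) ≤ 𝓝 x) ∨ ∃ n : I,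
      (∀ y, 1 / 3 ≤ j y n) ∧ (fun y => (j y n)⁻¹) ∈ G ∧
        Tendsto (fun y => (j y n)⁻¹) U (𝓝 0)) :
    IsGdeltaClosedIn (range i) := by
  intro p hp
  by_cases hcl : p ∈ closure (range (fun y => i (j y)))
  · -- the point is in the closure of `F`
    rw [mem_closure_iff_ultrafilter] at hcl
    obtain ⟨U, hU1, hU2⟩ := hcl
    -- pull back to `F`
    have hne : (comap (fun y => i (j y)) (U : Filter K)).NeBot := by
      rw [comap_neBot_iff]
      intro t ht
      obtain ⟨k, hk1, y, hy⟩ := U.nonempty_of_mem (inter_mem ht hU1)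
      exact ⟨y, by simp only at hy; rw [hy]; exact hk1⟩
    obtain ⟨W, hW⟩ := Ultrafilter.exists_le (comap (fun y => i (j y)) (U : Filter K))
    have htend : Tendsto (fun y => i (j y)) W (𝓝 p) :=
      (tendsto_comap.mono_left hW).mono_right hU2
    rcases hGd W with ⟨x, hx⟩ | ⟨n, hn1, hn2, hn3⟩
    · exfalso
      apply hp
      have h1 : Tendsto (fun y => i (j y)) W (𝓝 (i (j x))) :=
        ((h.emb.continuous.comp hj).tendsto x).mono_left hx
      exact ⟨j x, tendsto_nhds_unique h1 htend⟩
    · let A : (I → ℝ) → ℝ := fun q => (max (q n) (1 / 3))⁻¹ / 3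
      have hpos : ∀ q : I → ℝ, 0 < max (q n) (1 / 3) := fun q =>
        lt_of_lt_of_le (by norm_num) (le_max_right _ _)
      have hAc : Continuous A := by
        apply Continuous.div_const
        apply Continuous.inv₀ _ (fun q => (hpos q).ne')
        exact (continuous_apply n).max continuous_const
      have hApos : ∀ q, 0 < A q := fun q => div_pos (inv_pos.2 (hpos q)) (by norm_num)
      have hA1 : ∀ q, A q ≤ 1 := by
        intro q
        simp only [A]
        rw [div_le_one (by norm_num)]
        rw [inv_le_comm₀ (hpos q) (by norm_num)]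
        exact le_trans (by norm_num) (le_max_right _ _)
      have hAj : ∀ y, A (j y) = (j y n)⁻¹ / 3 := fun y => by
        simp only [A]; rw [max_eq_left (hn1 y)]
      have hcont : Continuous fun y => (j y n)⁻¹ := by
        apply Continuous.inv₀ ((continuous_apply n).comp hj)
        intro y
        have := hn1 y
        intro h0
        simp only [Function.comp] at h0
        rw [h0] at this
        norm_num at this
      have hAG : (fun y => A (j y)) ∈ G := by
        apply hG.op (fun _ => fun y => (j y n)⁻¹) (fun _ => hcont) (fun _ => hn2)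
        intro x y hxy
        rw [hAj, hAj, hxy 0]
      obtain ⟨φ, hφc, hφ⟩ := h.ext A hAc (fun q => ⟨(hApos q).le, hA1 q⟩) hAG
      refine ⟨{k | φ k = 0}, isGδ_zero hφc 0, ?_, ?_⟩
      · have h1 : Tendsto (fun y => φ (i (j y))) W (𝓝 (φ p)) := (hφc.tendsto p).comp htend
        have h2 : Tendsto (fun y => φ (i (j y))) W (𝓝 (0 / 3)) := by
          simp only [hφ, hAj]
          exact hn3.div_const 3
        have := tendsto_nhds_unique h1 h2
        simpa using this
      · rw [Set.disjoint_left]
        rintro _ h0 ⟨q, rfl⟩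
        have : φ (i q) = 0 := h0
        rw [hφ] at this
        exact absurd this (hApos q).ne'
  · -- the point is away from `F`
    obtain ⟨u, hu0, hu1, hu2⟩ := exists_continuous_zero_one_of_isClosed
      (isClosed_closure (s := range (fun y => i (j y)))) (isClosed_singleton (x := p))
      (by simpa using hcl)
    have hu1p : u p = 1 := hu1 rfl
    have hu0j : ∀ y, u (i (j y)) = 0 := fun y => hu0 (subset_closure ⟨y, rfl⟩)
    let θ : ℝ → ℝ := fun t => t / (1 + |t|)
    have hθpos : ∀ t : ℝ, 0 < 1 + |t| := fun t => by positivity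
    have hθc : Continuous θ := by
      apply Continuous.div continuous_id (by fun_prop) (fun t => (hθpos t).ne')
    have hθlt : ∀ t, |θ t| < 1 := by
      intro t
      simp only [θ]
      rw [abs_div, abs_of_pos (hθpos t), div_lt_one (hθpos t)]
      linarith [abs_nonneg t]
    let τ : ℝ → ℝ := fun t => t / (1 - |t|)
    have hτθ : ∀ t, τ (θ t) = t := by
      intro t
      have h1 : |θ t| = |t| / (1 + |t|) := by
        simp only [θ]; rw [abs_div, abs_of_pos (hθpos t)]
      have h2 : (1 + |t|) ≠ 0 := (hθpos t).ne'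
      simp only [τ]
      rw [h1]
      simp only [θ]
      have h3 : 1 - |t| / (1 + |t|) = 1 / (1 + |t|) := by field_simp; ring
      rw [h3]
      field_simp
    -- the functions `u * θ`
    have key : ∀ n : I, ∃ φ : K → ℝ, Continuous φ ∧ ∀ q, φ (i q) = u (i q) * θ (q n) := by
      intro n
      have hle : ∀ q : I → ℝ, |u (i q) * θ (q n)| ≤ 1 := by
        intro q
        rw [abs_mul, abs_of_nonneg (hu2 (i q)).1]
        calc u (i q) * |θ (q n)| ≤ 1 * 1 :=
              mul_le_mul (hu2 _).2 (hθlt _).le (abs_nonneg _) (by norm_num)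
          _ = 1 := by norm_num
      obtain ⟨φ, hφc, hφ⟩ := h.ext (fun q => (1 + u (i q) * θ (q n)) / 2)
        (by
          have h1 : Continuous fun q : I → ℝ => u (i q) := u.continuous.comp h.emb.continuous
          have h2 : Continuous fun q : I → ℝ => θ (q n) := hθc.comp (continuous_apply n)
          exact (continuous_const.add (h1.mul h2)).div_const 2)
        (fun q => by
          have := abs_le.1 (hle q)
          constructor
          · linarith [this.1]
          · linarith [this.2])
        (by
          apply hG.op (fun _ _ => 0) (fun _ => continuous_const) (fun _ => hG.zero)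
          intro x y _
          rw [hu0j, hu0j]; ring)
      refine ⟨fun k => 2 * φ k - 1, by fun_prop, fun q => ?_⟩
      simp only
      rw [hφ]; ring
    choose φ hφc hφ using key
    by_cases hex : ∃ n, |φ n p| = 1
    · obtain ⟨n, hn⟩ := hex
      refine ⟨{k | |φ n k| = 1}, isGδ_zero (hφc n).abs 1, hn, ?_⟩
      rw [Set.disjoint_left]
      rintro _ h0 ⟨q, rfl⟩
      have h1 : |φ n (i q)| = 1 := h0
      rw [hφ, abs_mul, abs_of_nonneg (hu2 (i q)).1] at h1
      have h2 : u (i q) * |θ (q n)| ≤ 1 * |θ (q n)| :=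
        mul_le_mul_of_nonneg_right (hu2 _).2 (abs_nonneg _)
      have h3 := hθlt (q n)
      linarith
    · exfalso
      push Not at hex
      apply hp
      -- a ultrafilter on `P` converging to `p`
      have hpcl : p ∈ closure (range i) := by rw [h.dense.closure_range]; trivial
      rw [mem_closure_iff_ultrafilter] at hpcl
      obtain ⟨U, hU1, hU2⟩ := hpcl
      have hne : (comap i (U : Filter K)).NeBot := by
        rw [comap_neBot_iff]
        intro t ht
        obtain ⟨k, hk1, y, hy⟩ := U.nonempty_of_mem (inter_mem ht hU1)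
        exact ⟨y, by rw [hy]; exact hk1⟩
      have htend : Tendsto i (comap i (U : Filter K)) (𝓝 p) := tendsto_comap.mono_right hU2
      have hut : Tendsto (fun q => u (i q)) (comap i (U : Filter K)) (𝓝 1) := by
        have := (u.continuous.tendsto p).comp htend
        rwa [hu1p] at this
      have hθt : ∀ n, Tendsto (fun q : I → ℝ => θ (q n)) (comap i (U : Filter K))
          (𝓝 (φ n p)) := by
        intro n
        have h1 : Tendsto (fun q => u (i q) * θ (q n)) (comap i (U : Filter K))
            (𝓝 (φ n p)) := by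
          have := ((hφc n).tendsto p).comp htend
          exact this.congr fun q => hφ n q
        have h2 := h1.div hut one_ne_zero
        rw [div_one] at h2
        refine h2.congr' ?_
        have h3 : ∀ᶠ q in comap i (U : Filter K), u (i q) ≠ 0 :=
          hut.eventually_ne one_ne_zero
        filter_upwards [h3] with q hq
        simp only [Pi.div_apply]
        field_simp
      have hle1 : ∀ n, |φ n p| < 1 := by
        intro n
        refine lt_of_le_of_ne ?_ (hex n)
        have := (hθt n).abs
        exact le_of_tendsto this (Eventually.of_forall fun q => (hθlt _).le)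
      have hqt : Tendsto (fun q : I → ℝ => q) (comap i (U : Filter K))
          (𝓝 (fun n => τ (φ n p))) := by
        rw [tendsto_pi_nhds]
        intro n
        have h1 : ContinuousAt τ (φ n p) := by
          apply ContinuousAt.div continuousAt_id (by fun_prop)
          have := hle1 n
          linarith
        have h2 := h1.tendsto.comp (hθt n)
        refine h2.congr fun q => ?_
        simp only [Function.comp]
        exact hτθ _
      have h3 := (h.emb.continuous.tendsto _).comp hqt
      exact ⟨_, tendsto_nhds_unique h3 htend⟩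

end Pool.MPd80aff
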