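import Pool.Agent.MP_d80aff_gt.Abstract

open Set Topology Filter

namespace Pool.MPd80aff

/-- Separation of points from closed sets by good functions. -/
lemma exists_sep {I F κ : Type} [TopologicalSpace F] {j : F → (I → ℝ)} (hj : IsClosedEmbedding j)
    {G : Set (F → ℝ)} (hG : GoodClass G) (e : κ → I) (he : ∀ k, (fun y => j y (e k)) ∈ G)
    (hind : IsInducing (fun y => fun k => j y (e k))) (q : I → ℝ) (U : Set (I → ℝ))
    (hU : U ∈ 𝓝 q) : ∃ A : (I → ℝ) → ℝ, Continuous A ∧ (∀ p, A p ∈ Icc (0:ℝ) 1) ∧
      (fun y => A (j y)) ∈ G ∧ A q = 1 ∧ ∀ p, p ∉ U → A p = 0 := by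
  classical
  -- complete regularity
  have creg : ∀ V ∈ 𝓝 q, ∃ A : (I → ℝ) → ℝ, Continuous A ∧ (∀ p, A p ∈ Icc (0:ℝ) 1) ∧
      A q = 1 ∧ ∀ p, p ∉ V → A p = 0 := by
    intro V hV
    obtain ⟨V', hV', hVo, hqV⟩ := mem_nhds_iff.1 hV
    obtain ⟨f, hf, hf0, hf1⟩ := CompletelyRegularSpace.completely_regular q V'ᶜ
      hVo.isClosed_compl (by simpa using hqV)
    refine ⟨fun p => 1 - (f p : ℝ), continuous_const.sub (continuous_subtype_val.comp hf),
      fun p => ⟨by linarith [(f p).2.2], by linarith [(f p).2.1]⟩, by simp [hf0], ?_⟩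
    intro p hp
    have : f p = 1 := hf1 (fun h => hp (hV' h))
    simp [this]
  by_cases hq : q ∈ range j
  · obtain ⟨x, rfl⟩ := hq
    obtain ⟨g₀, hg₀c, hg₀01, hg₀1, hg₀0⟩ := creg U hU
    have hV : {y : F | 1 / 2 < g₀ (j y)} ∈ 𝓝 x := by
      apply IsOpen.mem_nhds (isOpen_lt continuous_const (hg₀c.comp hj.continuous))
      change 1 / 2 < g₀ (j x)
      rw [hg₀1]; norm_num
    rw [hind.nhds_eq_comap, mem_comap] at hV
    obtain ⟨S, hS, hSV⟩ := hV
    rw [nhds_pi, Filter.mem_pi'] at hS
    obtain ⟨E, t, ht, hE⟩ := hS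
    have hball : ∀ k : κ, ∃ ε : ℝ, 0 < ε ∧ Metric.ball (j x (e k)) ε ⊆ t k := fun k =>
      Metric.mem_nhds_iff.1 (ht k)
    choose ε hε hball using hball
    let s : (I → ℝ) → ℝ := fun p => ∏ k ∈ E, max 0 (1 - |p (e k) - j x (e k)| / ε k)
    have hsc : Continuous s := by
      apply continuous_finsetProd
      intro k _
      apply continuous_const.max
      apply continuous_const.sub
      apply Continuous.div_const
      exact ((continuous_apply (e k)).sub continuous_const).abs
    have hfac0 : ∀ p : I → ℝ, ∀ k, 0 ≤ max 0 (1 - |p (e k) - j x (e k)| / ε k) := fun p k =>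
      le_max_left _ _
    have hfac1 : ∀ p : I → ℝ, ∀ k, max 0 (1 - |p (e k) - j x (e k)| / ε k) ≤ 1 := fun p k => by
      apply max_le (by norm_num)
      have : 0 ≤ |p (e k) - j x (e k)| / ε k := div_nonneg (abs_nonneg _) (hε k).le
      linarith
    have hs0 : ∀ p, 0 ≤ s p := fun p => Finset.prod_nonneg fun k _ => hfac0 p k
    have hs1 : ∀ p, s p ≤ 1 := fun p => Finset.prod_le_one (fun k _ => hfac0 p k)
      fun k _ => hfac1 p k
    have hsx : s (j x) = 1 := by
      simp [s]
    have hsupp : ∀ y : F, s (j y) ≠ 0 → 1 / 2 < g₀ (j y) := by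
      intro y hy
      apply hSV
      apply hE
      intro k hk
      apply hball k
      rw [Metric.mem_ball, Real.dist_eq]
      by_contra hcon
      push Not at hcon
      apply hy
      apply Finset.prod_eq_zero hk
      apply max_eq_left
      have : 1 ≤ |j y (e k) - j x (e k)| / ε k := by
        rw [le_div_iff₀ (hε k)]; linarith
      linarith
    refine ⟨fun p => s p * min 1 (2 * g₀ p), hsc.mul (continuous_const.min
      (continuous_const.mul hg₀c)), ?_, ?_, ?_, ?_⟩
    · intro p
      have h1 : 0 ≤ min 1 (2 * g₀ p) := le_min (by norm_num) (by linarith [(hg₀01 p).1])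
      refine ⟨mul_nonneg (hs0 p) h1, ?_⟩
      calc s p * min 1 (2 * g₀ p) ≤ 1 * 1 := mul_le_mul (hs1 p) (min_le_left _ _) h1 (by norm_num)
        _ = 1 := by norm_num
    · have heq : (fun y => s (j y) * min 1 (2 * g₀ (j y))) = fun y => s (j y) := by
        funext y
        by_cases h0 : s (j y) = 0
        · rw [h0]; simp
        · have := hsupp y h0
          rw [min_eq_left (by linarith), mul_one]
      simp only
      rw [heq]
      apply hG.op' (ι := {k // k ∈ E}) (fun k y => j y (e k.1))
        (fun k => (continuous_apply _).comp hj.continuous) (fun k => he k.1)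
      intro y y' hyy
      simp only [s]
      apply Finset.prod_congr rfl
      intro k hk
      rw [hyy ⟨k, hk⟩]
    · simp only
      rw [hsx, hg₀1]; norm_num
    · intro p hp
      simp only
      rw [hg₀0 p hp]; simp
  · have hV : U ∩ (range j)ᶜ ∈ 𝓝 q :=
      inter_mem hU (hj.isClosed_range.isOpen_compl.mem_nhds hq)
    obtain ⟨A, h1, h2, h3, h4⟩ := creg _ hV
    refine ⟨A, h1, h2, ?_, h3, ?_⟩
    · have : (fun y => A (j y)) = fun _ => 0 := by
        funext y
        exact h4 _ (fun h => h.2 ⟨y, rfl⟩)
      rw [this]; exact hG.zero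
    · intro p hp
      exact h4 p (fun h => hp h.1)

/-- Existence of the compactification. -/
lemma exists_gcomp {I F κ : Type} [TopologicalSpace F] {j : F → (I → ℝ)}
    (hj : IsClosedEmbedding j)
    {G : Set (F → ℝ)} (hG : GoodClass G) (e : κ → I) (he : ∀ k, (fun y => j y (e k)) ∈ G)
    (hind : IsInducing (fun y => fun k => j y (e k))) :
    ∃ (K : Type) (_ : TopologicalSpace K) (_ : CompactSpace K) (_ : T2Space K)
      (i : (I → ℝ) → K), GComp j G K i := by
  classical
  let 𝒜 : Type := {A : (I → ℝ) → ℝ // Continuous A ∧ (∀ p, A p ∈ Icc (0:ℝ) 1) ∧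
    (fun y => A (j y)) ∈ G}
  let T : Type := 𝒜 → Icc (0:ℝ) 1
  let m : (I → ℝ) → T := fun p A => ⟨A.1 p, A.2.2.1 p⟩
  have hm : Continuous m := by
    apply continuous_pi
    intro A
    exact A.2.1.subtype_mk _
  have hmi : IsInducing m := by
    rw [isInducing_iff_nhds]
    intro q
    apply le_antisymm
    · exact (hm.tendsto q).le_comap
    · intro U hU
      obtain ⟨A, h1, h2, h3, h4, h5⟩ := exists_sep hj hG e he hind q U hU
      rw [mem_comap]
      refine ⟨{s : T | (1 / 2 : ℝ) < (s ⟨A, h1, h2, h3⟩ : ℝ)}, ?_, ?_⟩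
      · apply IsOpen.mem_nhds
        · exact isOpen_lt continuous_const
            (continuous_subtype_val.comp (continuous_apply _))
        · change (1 / 2 : ℝ) < A q
          rw [h4]; norm_num
      · intro p hp
        have hp' : (1 / 2 : ℝ) < A p := hp
        by_contra hpU
        rw [h5 p hpU] at hp'
        norm_num at hp'
  have hme : IsEmbedding m := ⟨hmi, hmi.injective⟩
  let K : Set T := closure (range m)
  have hKc : CompactSpace K := isCompact_iff_compactSpace.1 isClosed_closure.isCompact
  let i : (I → ℝ) → K := fun p => ⟨m p, subset_closure ⟨p, rfl⟩⟩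
  have hie : IsEmbedding i := hme.codRestrict K _
  have hid : DenseRange i := by
    intro k
    rw [closure_subtype]
    have : (Subtype.val '' range i) = range m := by
      rw [← range_comp]; rfl
    rw [this]
    exact k.2
  have hext : ∀ A : (I → ℝ) → ℝ, Continuous A → (∀ p, A p ∈ Icc (0:ℝ) 1) →
      (fun y => A (j y)) ∈ G → ∃ φ : K → ℝ, Continuous φ ∧ ∀ p, φ (i p) = A p := by
    intro A h1 h2 h3
    refine ⟨fun k => (k.1 ⟨A, h1, h2, h3⟩ : ℝ), ?_, fun p => rfl⟩
    exact continuous_subtype_val.comp ((continuous_apply _).comp continuous_subtype_val)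
  refine ⟨K, inferInstance, hKc, inferInstance, i, hie, hid, hext, ?_⟩
  -- Stone-Weierstrass
  let S : Subalgebra ℝ C(K, ℝ) :=
    { carrier := {φ | (fun y => φ (i (j y))) ∈ G}
      mul_mem' := by
        intro φ ψ hφ hψ
        refine hG.op (fun n y => if n = 0 then φ (i (j y)) else ψ (i (j y))) ?_ ?_ _ ?_
        · intro n
          by_cases h0 : n = 0
          · simp only [h0, if_true]
            exact φ.continuous.comp (hie.continuous.comp hj.continuous)
          · simp only [h0, if_false]
            exact ψ.continuous.comp (hie.continuous.comp hj.continuous)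
        · intro n
          by_cases h0 : n = 0
          · simp only [h0, if_true]; exact hφ
          · simp only [h0, if_false]; exact hψ
        · intro x y hxy
          have h0 := hxy 0
          have h1 := hxy 1
          simp only [if_true, one_ne_zero, if_false] at h0 h1
          simp [h0, h1]
      add_mem' := by
        intro φ ψ hφ hψ
        refine hG.op (fun n y => if n = 0 then φ (i (j y)) else ψ (i (j y))) ?_ ?_ _ ?_
        · intro n
          by_cases h0 : n = 0
          · simp only [h0, if_true]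
            exact φ.continuous.comp (hie.continuous.comp hj.continuous)
          · simp only [h0, if_false]
            exact ψ.continuous.comp (hie.continuous.comp hj.continuous)
        · intro n
          by_cases h0 : n = 0
          · simp only [h0, if_true]; exact hφ
          · simp only [h0, if_false]; exact hψ
        · intro x y hxy
          have h0 := hxy 0
          have h1 := hxy 1
          simp only [if_true, one_ne_zero, if_false] at h0 h1
          simp [h0, h1]
      algebraMap_mem' := by
        intro r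
        refine hG.op (fun _ _ => 0) (fun _ => continuous_const) (fun _ => hG.zero) _ ?_
        intro x y _
        simp }
  have hScl : S.topologicalClosure ≤ S := by
    intro φ hφ
    have hφ' : φ ∈ closure (S : Set C(K, ℝ)) := hφ
    rw [mem_closure_iff_seq_limit] at hφ'
    obtain ⟨x, hx, hxt⟩ := hφ'
    refine hG.op (fun n y => x n (i (j y)))
      (fun n => (x n).continuous.comp (hie.continuous.comp hj.continuous)) (fun n => hx n) _ ?_
    intro y y' hyy
    have h1 : ∀ k : K, Tendsto (fun n => x n k) atTop (𝓝 (φ k)) := fun k =>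
      ((continuous_eval_const k).tendsto φ).comp hxt
    refine tendsto_nhds_unique (h1 (i (j y))) ((h1 (i (j y'))).congr fun n => ?_)
    exact (hyy n).symm
  have hsep : S.SeparatesPoints := by
    intro k k' hne
    have : ∃ A : 𝒜, k.1 A ≠ k'.1 A := by
      by_contra hcon
      push Not at hcon
      exact hne (Subtype.ext (funext hcon))
    obtain ⟨A, hA⟩ := this
    refine ⟨fun k => (k.1 A : ℝ), ⟨⟨fun k => (k.1 A : ℝ),
      continuous_subtype_val.comp ((continuous_apply _).comp continuous_subtype_val)⟩, ?_, rfl⟩,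
      fun h => hA (Subtype.ext h)⟩
    exact A.2.2.2
  have htop := ContinuousMap.subalgebra_topologicalClosure_eq_top_of_separatesPoints S hsep
  rw [htop] at hScl
  intro φ hφ
  exact hScl (show (⟨φ, hφ⟩ : C(K, ℝ)) ∈ (⊤ : Subalgebra ℝ C(K, ℝ)) from trivial)

/-- The abstract criterion. -/
theorem not_starStar_of {I F κ : Type} [TopologicalSpace F] {j : F → (I → ℝ)}
    (hj : IsClosedEmbedding j)
    {G : Set (F → ℝ)} (hG : GoodClass G) (e : κ → I) (he : ∀ k, (fun y => j y (e k)) ∈ G)
    (hind : IsInducing (fun y => fun k => j y (e k)))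
    (hGd : ∀ U : Ultrafilter F, (∃ x, (U : Filter F) ≤ 𝓝 x) ∨ ∃ n : I,
      (∀ y, 1 / 3 ≤ j y n) ∧ (fun y => (j y n)⁻¹) ∈ G ∧
        Tendsto (fun y => (j y n)⁻¹) U (𝓝 0))
    (n₀ : I) (h01 : ∀ y, j y n₀ ∈ Icc (0:ℝ) 1) (hbad : (fun y => j y n₀) ∉ G) :
    ¬ StarStar (I → ℝ) := by
  intro hSS
  obtain ⟨K, _, _, _, i, hK⟩ := exists_gcomp hj hG e he hind
  have hlarge := hK.large hj.continuous hG
  have hgd := hK.gdelta hG hj.continuous hGd
  have hb := hSS K i hK.emb hK.dense hlarge hgd
  refine hK.not_isBeta (fun q => max 0 (min 1 (q n₀))) ?_ ?_ ?_ hb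
  · exact continuous_const.max (continuous_const.min (continuous_apply n₀))
  · intro p
    exact ⟨le_max_left _ _, max_le (by norm_num) (min_le_left _ _)⟩
  · have : (fun y => max 0 (min 1 (j y n₀))) = fun y => j y n₀ := by
      funext y
      rw [min_eq_right (h01 y).2, max_eq_right (h01 y).1]
    rw [this]
    exact hbad

end Pool.MPd80aff
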