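import Pool.Agent.MP_d80aff_gt.Locality
import Pool.Agent.MP_d80aff_gt.Exist

open Set Topology Filter

namespace Pool.MPd80aff

variable {Om : Type} [LinearOrder Om]

/-- The good functions. -/
def GG (Om : Type) [LinearOrder Om] : Set (Fsp Om → ℝ) := {h | PP h}

lemma goodClass_GG (hctbl : ∀ ξ : Om, (Iic ξ).Countable) : GoodClass (GG Om) where
  zero := PP.of_countable (E := ∅) countable_empty (fun _ _ _ h => h.elim) fun _ _ _ => rfl
  op := fun _ hc hP _ hg => PP.of_seq hc hP hg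
  loc := fun _ hc hl => locality hctbl hc fun x => by
    obtain ⟨U, hU, g, hg, h⟩ := hl x
    exact ⟨U, hU, g, hg, h⟩

lemma cont_c (ξ : Om) : Continuous fun x : Fsp Om => (x.1 ξ).1 :=
  ((continuous_apply ξ).comp continuous_subtype_val).fst

lemma cont_d (ξ : Om) : Continuous fun x : Fsp Om => (x.1 ξ).2 :=
  ((continuous_apply ξ).comp continuous_subtype_val).snd

/-- Every point of `F` has a place where the second coordinate vanishes. -/
lemma exists_zero [WellFoundedLT Om] [NoMaxOrder Om] [Uncountable Om] (x : Fsp Om) :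
    ∃ ξ, (x.1 ξ).2 = 0 := by
  by_contra hcon
  push Not at hcon
  have hpos : ∀ ξ, 0 < (x.1 ξ).2 := fun ξ => lt_of_le_of_ne (x.2 ξ).2.2.1 (hcon ξ).symm
  have hsucc : ∀ ξ : Om, ∃ σ, ξ < σ ∧ ∀ η, ξ < η → σ ≤ η := by
    intro ξ
    obtain ⟨σ, hσ1, hσ2⟩ := WellFounded.has_min (wellFounded_lt (α := Om)) {η | ξ < η}
      (exists_gt ξ)
    exact ⟨σ, hσ1, fun η hη => not_lt.1 (hσ2 η hη)⟩
  choose σ hσ1 hσ2 using hsucc
  have hdec : ∀ ξ η, ξ < η → (x.1 η).2 < (x.1 ξ).2 := fun ξ η h =>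
    ((x.2 ξ).2.2.2.2 η h).2 (hpos ξ)
  have hdec' : ∀ ξ η, ξ ≤ η → (x.1 η).2 ≤ (x.1 ξ).2 := fun ξ η h => by
    rcases h.eq_or_lt with rfl | h
    · exact le_refl _
    · exact (hdec ξ η h).le
  have hdisj : (univ : Set Om).PairwiseDisjoint fun ξ => Ioo (x.1 (σ ξ)).2 (x.1 ξ).2 := by
    have aux : ∀ ξ η, ξ < η → Disjoint (Ioo (x.1 (σ ξ)).2 (x.1 ξ).2)
        (Ioo (x.1 (σ η)).2 (x.1 η).2) := by
      intro ξ η h
      rw [Set.disjoint_left]
      rintro t ⟨h1, _⟩ ⟨_, h4⟩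
      have := hdec' (σ ξ) η (hσ2 ξ η h)
      linarith
    intro ξ _ η _ hne
    rcases lt_or_gt_of_ne hne with h | h
    · exact aux ξ η h
    · exact (aux η ξ h).symm
  have := hdisj.countable_of_isOpen (fun _ _ => isOpen_Ioo) fun ξ _ =>
    nonempty_Ioo.2 (hdec ξ (σ ξ) (hσ1 ξ))
  exact not_countable (countable_univ_iff.1 this)

set_option linter.unusedSectionVars false

section
variable [WellFoundedLT Om] [NoMaxOrder Om] [Uncountable Om]

/-- The eventual value of the first coordinate. -/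
noncomputable def fval (x : Fsp Om) : ℝ := (x.1 (exists_zero x).choose).1

lemma fval_le (x : Fsp Om) (ξ : Om) : |fval x - (x.1 ξ).1| ≤ (x.1 ξ).2 := by
  have h0 := (exists_zero x).choose_spec
  unfold fval
  set ζ := (exists_zero x).choose
  rcases lt_trichotomy ξ ζ with h | h | h
  · have := ((x.2 ξ).2.2.2.2 ζ h).1
    rw [h0, sub_zero] at this
    exact this
  · rw [h, sub_self, abs_zero, h0]
  · have h1 := ((x.2 ζ).2.2.2.2 ξ h).1
    have h2 := (x.2 ξ).2.2.1
    rw [h0] at h1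
    rw [abs_sub_comm]
    linarith

lemma fval_eq (x : Fsp Om) {ξ : Om} (h : (x.1 ξ).2 = 0) : fval x = (x.1 ξ).1 := by
  have := fval_le x ξ
  rw [h] at this
  have := abs_nonpos_iff.1 this
  linarith

lemma fval_mem (x : Fsp Om) : fval x ∈ Icc (0:ℝ) 1 :=
  ⟨(x.2 _).1, (x.2 _).2.1⟩

lemma cont_fval : Continuous (fval : Fsp Om → ℝ) := by
  rw [continuous_iff_continuousAt]
  intro x
  obtain ⟨ζ, hζ⟩ := exists_zero x
  rw [ContinuousAt, tendsto_iff_dist_tendsto_zero]
  have hb : Tendsto (fun y : Fsp Om => (y.1 ζ).2 + |(y.1 ζ).1 - (x.1 ζ).1|) (𝓝 x)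
      (𝓝 ((x.1 ζ).2 + |(x.1 ζ).1 - (x.1 ζ).1|)) :=
    ((cont_d ζ).add ((cont_c ζ).sub continuous_const).abs).tendsto x
  rw [hζ, sub_self, abs_zero, add_zero] at hb
  refine squeeze_zero (fun _ => dist_nonneg) (fun y => ?_) hb
  rw [Real.dist_eq, fval_eq x hζ]
  have := fval_le y ζ
  calc |fval y - (x.1 ζ).1| = |(fval y - (y.1 ζ).1) + ((y.1 ζ).1 - (x.1 ζ).1)| := by congr 1; ring
    _ ≤ _ := abs_add_le _ _
    _ ≤ _ := by linarith

lemma fval_not_PP : ¬ PP (fval : Fsp Om → ℝ) := by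
  intro h
  let u : Node Om :=
    { D := ∅, cD := countable_empty, low := fun _ _ _ h => h.elim, c := fun _ => 0,
      d := fun _ => 0, c0 := fun _ h => h.elim, c1 := fun _ h => h.elim,
      d0 := fun _ h => h.elim, d2 := fun _ h => h.elim, lip := fun _ h => h.elim,
      str := fun _ h => h.elim }
  obtain ⟨z, _, hz, hfr⟩ := h 0 1 (1 / 2) 1 u (le_refl _) zero_le_one (le_refl _) (by norm_num)
    (by norm_num) (le_refl _) (fun _ h => h.elim)
  have hex : ∃ ξ, ξ ∉ z.D := by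
    by_contra hcon
    push Not at hcon
    have : z.D = univ := eq_univ_of_forall hcon
    have h2 := z.cD
    rw [this] at h2
    exact not_countable (countable_univ_iff.1 h2)
  obtain ⟨ξ, hξ⟩ := hex
  have h0 : (0:ℝ) ∈ Icc (0:ℝ) 1 := ⟨le_refl _, zero_le_one⟩
  have h1 : (1:ℝ) ∈ Icc (0:ℝ) 1 := ⟨zero_le_one, le_refl _⟩
  let x : Fsp Om := fill z 0 (le_refl _) zero_le_one fun η hη => by
    linarith [hz.val h0 η hη]
  let y : Fsp Om := fill z 1 zero_le_one (le_refl _) fun η hη => by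
    linarith [hz.val h1 η hη]
  have e := hfr x y 0 1 h0 h1 rfl rfl
  have hx : x.1 ξ = (0, 0) := fillFun_out hξ
  have hy : y.1 ξ = (1, 0) := fillFun_out hξ
  rw [fval_eq x (ξ := ξ) (by rw [hx]), fval_eq y (ξ := ξ) (by rw [hy]), hx, hy] at e
  simp at e

/-- The denominators. -/
noncomputable def den (ξ η : Om) (n : ℕ) (y : Fsp Om) : ℝ :=
  ((y.1 ξ).2 - (y.1 η).2) + max 0 (1 / ((n : ℝ) + 1) - (y.1 ξ).2)

lemma cont_den (ξ η : Om) (n : ℕ) : Continuous (den ξ η n) :=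
  ((cont_d ξ).sub (cont_d η)).add (continuous_const.max (continuous_const.sub (cont_d ξ)))

lemma den_pos {ξ η : Om} (h : ξ < η) (n : ℕ) (y : Fsp Om) : 0 < den ξ η n y := by
  unfold den
  obtain ⟨_, _, h1, _, h2⟩ := y.2 ξ
  have h3 := (h2 η h).1
  have h4 : (0:ℝ) < 1 / ((n : ℝ) + 1) := Nat.one_div_pos_of_nat
  rcases h1.eq_or_lt with h0 | h0
  · have h5 := (y.2 η).2.2.1
    have h6 : 0 ≤ (y.1 ξ).2 - (y.1 η).2 := (abs_nonneg _).trans h3
    have h7 : 1 / ((n : ℝ) + 1) - (y.1 ξ).2 ≤ max 0 (1 / ((n : ℝ) + 1) - (y.1 ξ).2) :=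
      le_max_right _ _
    rw [← h0] at h6 h7 ⊢
    linarith
  · have h5 := (h2 η h).2 h0
    have h6 : 0 ≤ max 0 (1 / ((n : ℝ) + 1) - (y.1 ξ).2) := le_max_left _ _
    linarith

lemma den_le {ξ η : Om} (n : ℕ) (y : Fsp Om) : den ξ η n y ≤ 3 := by
  unfold den
  obtain ⟨_, _, h1, h1', _⟩ := y.2 ξ
  obtain ⟨_, _, h2, _, _⟩ := y.2 η
  have h3 : 1 / ((n : ℝ) + 1) ≤ 1 := by
    rw [div_le_one (by positivity)]
    have : (0:ℝ) ≤ n := Nat.cast_nonneg n
    linarith
  have h4 : max 0 (1 / ((n : ℝ) + 1) - (y.1 ξ).2) ≤ 1 := max_le (by norm_num) (by linarith)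
  linarith

/-- The index type of the coordinates. -/
abbrev Idx (Om : Type) : Type := (Om ⊕ Om) ⊕ ((Om × Om × ℕ) ⊕ Unit)

/-- The coordinate functions. -/
noncomputable def fam : Idx Om → Fsp Om → ℝ
  | Sum.inl (Sum.inl ξ) => fun y => (y.1 ξ).1
  | Sum.inl (Sum.inr ξ) => fun y => (y.1 ξ).2
  | Sum.inr (Sum.inl (ξ, η, n)) => fun y => if ξ < η then (den ξ η n y)⁻¹ else 0
  | Sum.inr (Sum.inr _) => fval

lemma cont_fam (k : Idx Om) : Continuous (fam k) := by
  rcases k with (ξ | ξ) | (⟨ξ, η, n⟩ | _)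
  · exact cont_c ξ
  · exact cont_d ξ
  · simp only [fam]
    by_cases h : ξ < η
    · simp only [h, if_true]
      exact (cont_den ξ η n).inv₀ fun y => (den_pos h n y).ne'
    · simp only [h, if_false]
      exact continuous_const
  · exact cont_fval

/-- Limits along filters. -/
lemma limit_dichotomy {W : Filter (Fsp Om)} [W.NeBot] {x : Om → ℝ × ℝ}
    (hx : Tendsto (fun y : Fsp Om => y.1) W (𝓝 x)) :
    (∃ p : Fsp Om, p.1 = x ∧ W ≤ 𝓝 p) ∨
      ∃ (ξ η : Om) (n : ℕ), ξ < η ∧ Tendsto (den ξ η n) W (𝓝 0) := by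
  have hc : ∀ ξ, Tendsto (fun y : Fsp Om => (y.1 ξ).1) W (𝓝 (x ξ).1) := fun ξ =>
    (continuous_fst.tendsto _).comp ((tendsto_pi_nhds.1 hx) ξ)
  have hd : ∀ ξ, Tendsto (fun y : Fsp Om => (y.1 ξ).2) W (𝓝 (x ξ).2) := fun ξ =>
    (continuous_snd.tendsto _).comp ((tendsto_pi_nhds.1 hx) ξ)
  by_cases hst : ∀ ξ η, ξ < η → 0 < (x ξ).2 → (x η).2 < (x ξ).2
  · left
    have hpt : IsPt x := by
      intro ξ
      refine ⟨ge_of_tendsto (hc ξ) (Eventually.of_forall fun y => (y.2 ξ).1),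
        le_of_tendsto (hc ξ) (Eventually.of_forall fun y => (y.2 ξ).2.1),
        ge_of_tendsto (hd ξ) (Eventually.of_forall fun y => (y.2 ξ).2.2.1),
        le_of_tendsto (hd ξ) (Eventually.of_forall fun y => (y.2 ξ).2.2.2.1), ?_⟩
      intro η h
      refine ⟨?_, hst ξ η h⟩
      exact le_of_tendsto_of_tendsto ((hc η).sub (hc ξ)).abs ((hd ξ).sub (hd η))
        (Eventually.of_forall fun y => ((y.2 ξ).2.2.2.2 η h).1)
    refine ⟨⟨x, hpt⟩, rfl, ?_⟩
    have h : Tendsto (fun y : Fsp Om => y) W (𝓝 (⟨x, hpt⟩ : Fsp Om)) :=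
      isInducing_val.tendsto_nhds_iff.2 hx
    exact tendsto_id'.1 h
  · right
    push Not at hst
    obtain ⟨ξ, η, h, h0, hle⟩ := hst
    have hge : (x η).2 ≤ (x ξ).2 := by
      have : 0 ≤ (x ξ).2 - (x η).2 := by
        apply ge_of_tendsto ((hd ξ).sub (hd η))
        exact Eventually.of_forall fun y => (abs_nonneg _).trans ((y.2 ξ).2.2.2.2 η h).1
      linarith
    obtain ⟨n, hn⟩ := exists_nat_one_div_lt h0
    refine ⟨ξ, η, n, h, ?_⟩
    have h1 : Tendsto (den ξ η n) W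
        (𝓝 (((x ξ).2 - (x η).2) + max 0 (1 / ((n : ℝ) + 1) - (x ξ).2))) :=
      ((hd ξ).sub (hd η)).add (tendsto_const_nhds.max (tendsto_const_nhds.sub (hd ξ)))
    have h2 : ((x ξ).2 - (x η).2) + max 0 (1 / ((n : ℝ) + 1) - (x ξ).2) = 0 := by
      rw [max_eq_left (by linarith)]; linarith
    rw [h2] at h1
    exact h1

theorem not_starStar_aux (hctbl : ∀ ξ : Om, (Iic ξ).Countable) {I : Type} (π : I → Idx Om)
    (hπ : Function.Surjective π) : ¬ StarStar (I → ℝ) := by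
  choose sec hsec using hπ
  let j : Fsp Om → (I → ℝ) := fun y i => fam (π i) y
  have hjc : Continuous j := continuous_pi fun i => cont_fam (π i)
  have hjs : ∀ y k, j y (sec k) = fam k y := fun y k => by simp only [j, hsec]
  let e : Om ⊕ Om → I := fun k => sec (Sum.inl k)
  have hind : IsInducing (fun y => fun k => j y (e k)) := by
    have hc : Continuous (fun y => fun k => j y (e k)) :=
      continuous_pi fun k => (continuous_apply (e k)).comp hjc
    let g : (Om ⊕ Om → ℝ) → (Om → ℝ × ℝ) := fun p ξ => (p (Sum.inl ξ), p (Sum.inr ξ))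
    have hg : Continuous g := continuous_pi fun ξ =>
      (continuous_apply _).prodMk (continuous_apply _)
    apply IsInducing.of_comp hc hg
    have : (g ∘ fun y => fun k => j y (e k)) = fun y : Fsp Om => y.1 := by
      funext y ξ
      simp only [Function.comp, g, e, hjs]
      rfl
    rw [this]
    exact isInducing_val
  have hjind : IsInducing j := by
    let g : (I → ℝ) → (Om ⊕ Om → ℝ) := fun p k => p (e k)
    have hg : Continuous g := continuous_pi fun k => continuous_apply _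
    exact IsInducing.of_comp hjc hg hind
  have hinj : Function.Injective j := by
    intro y y' h
    apply Subtype.ext
    funext ξ
    have h1 := congrFun h (sec (Sum.inl (Sum.inl ξ)))
    have h2 := congrFun h (sec (Sum.inl (Sum.inr ξ)))
    rw [hjs, hjs] at h1 h2
    exact Prod.ext h1 h2
  have hclosed : IsClosed (range j) := by
    rw [← closure_subset_iff_isClosed]
    intro q hq
    rw [mem_closure_iff_ultrafilter] at hq
    obtain ⟨U, hU1, hU2⟩ := hq
    have hne : (comap j (U : Filter (I → ℝ))).NeBot := by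
      rw [comap_neBot_iff]
      intro t ht
      obtain ⟨k, hk1, y, hy⟩ := U.nonempty_of_mem (inter_mem ht hU1)
      exact ⟨y, by rw [hy]; exact hk1⟩
    have htend : Tendsto j (comap j (U : Filter (I → ℝ))) (𝓝 q) := tendsto_comap.mono_right hU2
    have hfam : ∀ k, Tendsto (fam k) (comap j (U : Filter (I → ℝ))) (𝓝 (q (sec k))) := by
      intro k
      have := (tendsto_pi_nhds.1 htend) (sec k)
      exact this.congr fun y => hjs y k
    have hx : Tendsto (fun y : Fsp Om => y.1) (comap j (U : Filter (I → ℝ)))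
        (𝓝 (fun ξ => (q (sec (Sum.inl (Sum.inl ξ))), q (sec (Sum.inl (Sum.inr ξ)))))) := by
      rw [tendsto_pi_nhds]
      intro ξ
      exact (hfam (Sum.inl (Sum.inl ξ))).prodMk_nhds (hfam (Sum.inl (Sum.inr ξ)))
    rcases limit_dichotomy hx with ⟨p, _, hp⟩ | ⟨ξ, η, n, hlt, h0⟩
    · exact ⟨p, tendsto_nhds_unique ((hjc.tendsto p).mono_left hp) htend⟩
    · exfalso
      have h1 := (hfam (Sum.inr (Sum.inl (ξ, η, n)))).mul h0
      rw [mul_zero] at h1
      have h2 : Tendsto (fun _ : Fsp Om => (1:ℝ)) (comap j (U : Filter (I → ℝ))) (𝓝 0) := by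
        refine h1.congr fun y => ?_
        simp only [fam, hlt, if_true]
        exact inv_mul_cancel₀ (den_pos hlt n y).ne'
      exact one_ne_zero (tendsto_nhds_unique tendsto_const_nhds h2)
  have hj : IsClosedEmbedding j := ⟨⟨hjind, hinj⟩, hclosed⟩
  refine not_starStar_of hj (goodClass_GG hctbl) e ?_ hind ?_ (sec (Sum.inr (Sum.inr ()))) ?_ ?_
  · rintro (ξ | ξ)
    · refine PP.of_countable (hctbl ξ) (isLowerSet_Iic ξ) fun x y hxy => ?_
      simp only [e, hjs, fam, hxy ξ (mem_Iic.2 le_rfl)]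
    · refine PP.of_countable (hctbl ξ) (isLowerSet_Iic ξ) fun x y hxy => ?_
      simp only [e, hjs, fam, hxy ξ (mem_Iic.2 le_rfl)]
  · intro U
    have hcomp : IsCompact (pi univ fun _ : Om => (Icc (0:ℝ) 1 ×ˢ Icc (0:ℝ) 2)) :=
      isCompact_univ_pi fun _ => isCompact_Icc.prod isCompact_Icc
    obtain ⟨x, _, hx⟩ := hcomp.ultrafilter_le_nhds (U.map fun y : Fsp Om => y.1) (by
      rw [le_principal_iff, Ultrafilter.mem_coe, Ultrafilter.mem_map]
      refine Filter.univ_mem' fun y ξ _ => ?_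
      exact ⟨⟨(y.2 ξ).1, (y.2 ξ).2.1⟩, (y.2 ξ).2.2.1, (y.2 ξ).2.2.2.1⟩)
    have hx' : Tendsto (fun y : Fsp Om => y.1) U (𝓝 x) := hx
    rcases limit_dichotomy hx' with ⟨p, _, hp⟩ | ⟨ξ, η, n, hlt, h0⟩
    · exact Or.inl ⟨p, hp⟩
    · right
      have hval : ∀ y, j y (sec (Sum.inr (Sum.inl (ξ, η, n)))) = (den ξ η n y)⁻¹ := fun y => by
        rw [hjs]; simp only [fam, hlt, if_true]
      refine ⟨sec (Sum.inr (Sum.inl (ξ, η, n))), fun y => ?_, ?_, ?_⟩
      · rw [hval, one_div]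
        exact inv_anti₀ (den_pos hlt n y) (den_le n y)
      · refine PP.of_countable (hctbl η) (isLowerSet_Iic η) fun x y hxy => ?_
        rw [hval, hval, inv_inv, inv_inv]
        simp only [den, hxy ξ (mem_Iic.2 hlt.le), hxy η (mem_Iic.2 le_rfl)]
      · refine h0.congr fun y => ?_
        rw [hval, inv_inv]
  · intro y
    rw [hjs]
    exact fval_mem y
  · have : (fun y => j y (sec (Sum.inr (Sum.inr ())))) = (fval : Fsp Om → ℝ) := by
      funext y; rw [hjs]; rfl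
    rw [this]
    exact fval_not_PP

end

end Pool.MPd80aff
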