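import Mathlib

/-!
Combinatorial core for the problem MP_d80aff_gt.

`Om` is a well-ordered type with no maximum, uncountable, all of whose proper initial segments are
countable.
-/

open Set Topology Filter

namespace Pool.MPd80aff

variable {Om : Type} [LinearOrder Om]

/-- Points of the space `F`. -/
def IsPt (x : Om → ℝ × ℝ) : Prop :=
  ∀ ξ, 0 ≤ (x ξ).1 ∧ (x ξ).1 ≤ 1 ∧ 0 ≤ (x ξ).2 ∧ (x ξ).2 ≤ 2 ∧
    ∀ η, ξ < η → |(x η).1 - (x ξ).1| ≤ (x ξ).2 - (x η).2 ∧ (0 < (x ξ).2 → (x η).2 < (x ξ).2)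

/-- The space `F`. -/
def Fsp (Om : Type) [LinearOrder Om] : Type := {x : Om → ℝ × ℝ // IsPt x}

instance : TopologicalSpace (Fsp Om) := instTopologicalSpaceSubtype

lemma isInducing_val : IsInducing (fun x : Fsp Om => x.1) := IsInducing.subtypeVal

/-- An incomplete point with countable domain. -/
structure Node (Om : Type) [LinearOrder Om] where
  D : Set Om
  cD : D.Countable
  low : IsLowerSet D
  c : Om → ℝ
  d : Om → ℝ
  c0 : ∀ ξ ∈ D, 0 ≤ c ξ
  c1 : ∀ ξ ∈ D, c ξ ≤ 1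
  d0 : ∀ ξ ∈ D, 0 < d ξ
  d2 : ∀ ξ ∈ D, d ξ ≤ 2
  lip : ∀ ξ ∈ D, ∀ η ∈ D, ξ < η → |c η - c ξ| ≤ d ξ - d η
  str : ∀ ξ ∈ D, ∀ η ∈ D, ξ < η → d η < d ξ

/-- Extension of nodes. -/
def Node.Le (u z : Node Om) : Prop :=
  u.D ⊆ z.D ∧ ∀ ξ ∈ u.D, z.c ξ = u.c ξ ∧ z.d ξ = u.d ξ

lemma Node.Le.refl (u : Node Om) : u.Le u := ⟨fun _ h => h, fun _ _ => ⟨rfl, rfl⟩⟩

lemma Node.Le.trans {u v w : Node Om} (h : u.Le v) (h' : v.Le w) : u.Le w :=
  ⟨h.1.trans h'.1, fun ξ hξ => ⟨(h'.2 ξ (h.1 hξ)).1.trans (h.2 ξ hξ).1,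
    (h'.2 ξ (h.1 hξ)).2.trans (h.2 ξ hξ).2⟩⟩

/-- Room to move. -/
def Room (u : Node Om) (a b r : ℝ) : Prop :=
  ∀ ξ ∈ u.D, |a - u.c ξ| + r ≤ u.d ξ ∧ |b - u.c ξ| + r ≤ u.d ξ

lemma Room.mono {u : Node Om} {a b r s : ℝ} (h : Room u a b r) (hs : s ≤ r) : Room u a b s :=
  fun ξ hξ => ⟨by linarith [(h ξ hξ).1], by linarith [(h ξ hξ).2]⟩

lemma Room.val {u : Node Om} {a b r v : ℝ} (h : Room u a b r) (hv : v ∈ Icc a b) :
    ∀ ξ ∈ u.D, |v - u.c ξ| + r ≤ u.d ξ := by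
  intro ξ hξ
  obtain ⟨h1, h2⟩ := h ξ hξ
  obtain ⟨h3, h4⟩ := hv
  have e1 := le_abs_self (b - u.c ξ)
  have e2 := neg_abs_le (a - u.c ξ)
  have : |v - u.c ξ| ≤ u.d ξ - r := by
    rw [abs_le]; constructor <;> linarith
  linarith

lemma Room.sub {u : Node Om} {a b r a' b' : ℝ} (h : Room u a b r) (ha : a' ∈ Icc a b)
    (hb : b' ∈ Icc a b) : Room u a' b' r :=
  fun ξ hξ => ⟨h.val ha ξ hξ, h.val hb ξ hξ⟩

open Classical in
/-- The function filling a node with the value `v`. -/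
noncomputable def fillFun (u : Node Om) (v : ℝ) : Om → ℝ × ℝ :=
  fun ξ => if ξ ∈ u.D then (u.c ξ, u.d ξ) else (v, 0)

lemma fillFun_in {u : Node Om} {v : ℝ} {ξ : Om} (h : ξ ∈ u.D) :
    fillFun u v ξ = (u.c ξ, u.d ξ) := by simp [fillFun, h]

lemma fillFun_out {u : Node Om} {v : ℝ} {ξ : Om} (h : ξ ∉ u.D) :
    fillFun u v ξ = (v, 0) := by simp [fillFun, h]

lemma fill_isPt {u : Node Om} {v : ℝ} (hv0 : 0 ≤ v) (hv1 : v ≤ 1)
    (h : ∀ ξ ∈ u.D, |v - u.c ξ| ≤ u.d ξ) : IsPt (fillFun u v) := by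
  intro ξ
  by_cases hξ : ξ ∈ u.D
  · rw [fillFun_in hξ]
    refine ⟨u.c0 ξ hξ, u.c1 ξ hξ, (u.d0 ξ hξ).le, u.d2 ξ hξ, fun η hη => ?_⟩
    by_cases hη' : η ∈ u.D
    · rw [fillFun_in hη']
      exact ⟨u.lip ξ hξ η hη' hη, fun _ => u.str ξ hξ η hη' hη⟩
    · rw [fillFun_out hη']
      refine ⟨?_, fun h0 => h0⟩
      simpa using h ξ hξ
  · rw [fillFun_out hξ]
    refine ⟨hv0, hv1, le_refl _, by norm_num, fun η hη => ?_⟩
    have hη' : η ∉ u.D := fun h' => hξ (u.low hη.le h')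
    rw [fillFun_out hη']
    simp

/-- The filled point. -/
noncomputable def fill (u : Node Om) (v : ℝ) (hv0 : 0 ≤ v) (hv1 : v ≤ 1)
    (h : ∀ ξ ∈ u.D, |v - u.c ξ| ≤ u.d ξ) : Fsp Om := ⟨fillFun u v, fill_isPt hv0 hv1 h⟩

/-- The property `P`. -/
def PP (h : Fsp Om → ℝ) : Prop :=
  ∀ (a b r' r : ℝ) (u : Node Om), 0 ≤ a → a ≤ b → b ≤ 1 → 0 < r' → r' < r → r ≤ 1 →
    Room u a b r → ∃ z : Node Om, u.Le z ∧ Room z a b r' ∧
      ∀ (x y : Fsp Om) (v w : ℝ), v ∈ Icc a b → w ∈ Icc a b → x.1 = fillFun z v →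
        y.1 = fillFun z w → h x = h y

/-- Extension lemma. -/
lemma ext_node {u : Node Om} {a b s t : ℝ} (ha : 0 ≤ a) (hab : a ≤ b) (hb : b ≤ 1)
    (hR : Room u a b s) (ht : 0 < t) (hts : t < s) (hs : s ≤ 1) {E : Set Om}
    (hE : E.Countable) (hElow : IsLowerSet E) (huE : u.D ⊆ E) :
    ∃ z : Node Om, u.Le z ∧ z.D = E ∧ Room z a b t ∧
      ∀ ξ ∈ E, ξ ∉ u.D → z.c ξ = (a + b) / 2 ∧ (b - a) / 2 + t < z.d ξ ∧
        z.d ξ < (b - a) / 2 + s := by
  classical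
  have hlt : (b - a) / 2 + t < (b - a) / 2 + s := by linarith
  have : Countable E := hE.to_subtype
  have : Countable (Eᵒᵈ) := ‹Countable E›
  have : Nonempty (Ioo ((b - a) / 2 + t) ((b - a) / 2 + s)) := by
    obtain ⟨m, hm⟩ := exists_between hlt
    exact ⟨⟨m, hm⟩⟩
  have : Nontrivial (Ioo ((b - a) / 2 + t) ((b - a) / 2 + s)) := by
    obtain ⟨m, hm⟩ := exists_between hlt
    obtain ⟨m', hm'⟩ := exists_between hm.2
    exact ⟨⟨⟨m, hm⟩, ⟨m', ⟨hm.1.trans hm'.1, hm'.2⟩⟩, fun h => by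
      have := congrArg Subtype.val h
      simp only at this
      exact absurd this hm'.1.ne⟩⟩
  obtain ⟨e⟩ := Order.embedding_from_countable_to_dense (Eᵒᵈ)
    (Ioo ((b - a) / 2 + t) ((b - a) / 2 + s))
  let e' : Om → ℝ := fun ξ => if h : ξ ∈ E then (e (OrderDual.toDual ⟨ξ, h⟩) : ℝ) else 0
  have he' : ∀ ξ (h : ξ ∈ E), e' ξ = (e (OrderDual.toDual ⟨ξ, h⟩) : ℝ) := fun ξ h => by
    simp [e', h]
  have he1 : ∀ ξ ∈ E, (b - a) / 2 + t < e' ξ := fun ξ h => by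
    rw [he' ξ h]; exact (e _).2.1
  have he2 : ∀ ξ ∈ E, e' ξ < (b - a) / 2 + s := fun ξ h => by
    rw [he' ξ h]; exact (e _).2.2
  have he3 : ∀ ξ ∈ E, ∀ η ∈ E, ξ < η → e' η < e' ξ := fun ξ h η h' hlt => by
    rw [he' ξ h, he' η h']
    have : e (OrderDual.toDual ⟨η, h'⟩) < e (OrderDual.toDual ⟨ξ, h⟩) := by
      rw [e.lt_iff_lt]
      exact OrderDual.toDual_lt_toDual.2 hlt
    exact this
  have hmid : ∀ ξ ∈ u.D, |(a + b) / 2 - u.c ξ| + (b - a) / 2 + s ≤ u.d ξ := by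
    intro ξ hξ
    obtain ⟨h1, h2⟩ := hR ξ hξ
    have e1 := le_abs_self (b - u.c ξ)
    have e2 := neg_abs_le (a - u.c ξ)
    have : |(a + b) / 2 - u.c ξ| ≤ u.d ξ - s - (b - a) / 2 := by
      rw [abs_le]; constructor <;> linarith
    linarith
  refine ⟨{ D := E, cD := hE, low := hElow,
            c := fun ξ => if ξ ∈ u.D then u.c ξ else (a + b) / 2,
            d := fun ξ => if ξ ∈ u.D then u.d ξ else e' ξ,
            c0 := ?_, c1 := ?_, d0 := ?_, d2 := ?_, lip := ?_, str := ?_ }, ⟨huE, ?_⟩, rfl, ?_, ?_⟩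
  · intro ξ hξ
    by_cases h : ξ ∈ u.D
    · simp only [h, if_true]; exact u.c0 ξ h
    · simp only [h, if_false]; linarith
  · intro ξ hξ
    by_cases h : ξ ∈ u.D
    · simp only [h, if_true]; exact u.c1 ξ h
    · simp only [h, if_false]; linarith
  · intro ξ hξ
    by_cases h : ξ ∈ u.D
    · simp only [h, if_true]; exact u.d0 ξ h
    · simp only [h, if_false]; linarith [he1 ξ hξ]
  · intro ξ hξ
    by_cases h : ξ ∈ u.D
    · simp only [h, if_true]; exact u.d2 ξ h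
    · simp only [h, if_false]; linarith [he2 ξ hξ]
  · intro ξ hξ η hη hlt
    by_cases h : ξ ∈ u.D
    · by_cases h' : η ∈ u.D
      · simp only [h, h', if_true]; exact u.lip ξ h η h' hlt
      · simp only [h, h', if_true, if_false]
        linarith [hmid ξ h, he2 η hη]
    · have h' : η ∉ u.D := fun h' => h (u.low hlt.le h')
      simp only [h, h', if_false, sub_self, abs_zero]
      linarith [he3 ξ hξ η hη hlt]
  · intro ξ hξ η hη hlt
    by_cases h : ξ ∈ u.D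
    · by_cases h' : η ∈ u.D
      · simp only [h, h', if_true]; exact u.str ξ h η h' hlt
      · simp only [h, h', if_true, if_false]
        have := abs_nonneg ((a + b) / 2 - u.c ξ)
        linarith [hmid ξ h, he2 η hη]
    · have h' : η ∉ u.D := fun h' => h (u.low hlt.le h')
      simp only [h, h', if_false]
      exact he3 ξ hξ η hη hlt
  · intro ξ hξ
    simp [hξ]
  · intro ξ hξ
    by_cases h : ξ ∈ u.D
    · simp only [h, if_true]
      exact ⟨by linarith [(hR ξ h).1], by linarith [(hR ξ h).2]⟩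
    · simp only [h, if_false]
      have h1 : |a - (a + b) / 2| = (b - a) / 2 := by
        rw [abs_of_nonpos (by linarith)]; ring
      have h2 : |b - (a + b) / 2| = (b - a) / 2 := by
        rw [abs_of_nonneg (by linarith)]; ring
      rw [h1, h2]
      exact ⟨(he1 ξ hξ).le, (he1 ξ hξ).le⟩
  · intro ξ hξ h
    refine ⟨by simp [h], ?_, ?_⟩
    · simpa [h] using he1 ξ hξ
    · simpa [h] using he2 ξ hξ

/-- Increasing chains of nodes. -/
lemma chain_le {z : ℕ → Node Om} (hz : ∀ n, (z n).Le (z (n + 1))) {m n : ℕ} (h : m ≤ n) :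
    (z m).Le (z n) := by
  induction n, h using Nat.le_induction with
  | base => exact Node.Le.refl _
  | succ n _ ih => exact ih.trans (hz n)

/-- The union of a chain of nodes. -/
lemma exists_union {z : ℕ → Node Om} (hz : ∀ n, (z n).Le (z (n + 1))) :
    ∃ w : Node Om, (∀ n, (z n).Le w) ∧ w.D = ⋃ n, (z n).D := by
  classical
  have key : ∀ ξ ∈ (⋃ n, (z n).D), ∃ n, ξ ∈ (z n).D := fun ξ h => by simpa using h
  choose! N hN using key
  have hval : ∀ n, ∀ ξ ∈ (z n).D, (z (N ξ)).c ξ = (z n).c ξ ∧ (z (N ξ)).d ξ = (z n).d ξ := by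
    intro n ξ hξ
    have hξ' := hN ξ (mem_iUnion.2 ⟨n, hξ⟩)
    rcases le_total n (N ξ) with h | h
    · exact (chain_le hz h).2 ξ hξ
    · have := (chain_le hz h).2 ξ hξ'
      exact ⟨this.1.symm, this.2.symm⟩
  have common : ∀ ξ ∈ (⋃ n, (z n).D), ∀ η ∈ (⋃ n, (z n).D), ∃ n, ξ ∈ (z n).D ∧ η ∈ (z n).D := by
    intro ξ hξ η hη
    refine ⟨max (N ξ) (N η), (chain_le hz (le_max_left _ _)).1 (hN ξ hξ),
      (chain_le hz (le_max_right _ _)).1 (hN η hη)⟩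
  refine ⟨{ D := ⋃ n, (z n).D, cD := countable_iUnion fun n => (z n).cD,
            low := isLowerSet_iUnion fun n => (z n).low,
            c := fun ξ => (z (N ξ)).c ξ, d := fun ξ => (z (N ξ)).d ξ,
            c0 := fun ξ hξ => (z _).c0 ξ (hN ξ hξ), c1 := fun ξ hξ => (z _).c1 ξ (hN ξ hξ),
            d0 := fun ξ hξ => (z _).d0 ξ (hN ξ hξ), d2 := fun ξ hξ => (z _).d2 ξ (hN ξ hξ),
            lip := ?_, str := ?_ }, fun n => ⟨subset_iUnion (fun n => (z n).D) n, ?_⟩, rfl⟩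
  · intro ξ hξ η hη hlt
    obtain ⟨n, h1, h2⟩ := common ξ hξ η hη
    rw [(hval n ξ h1).1, (hval n ξ h1).2, (hval n η h2).1, (hval n η h2).2]
    exact (z n).lip ξ h1 η h2 hlt
  · intro ξ hξ η hη hlt
    obtain ⟨n, h1, h2⟩ := common ξ hξ η hη
    rw [(hval n ξ h1).2, (hval n η h2).2]
    exact (z n).str ξ h1 η h2 hlt
  · intro ξ hξ
    exact hval n ξ hξ

lemma room_union {z : ℕ → Node Om} {w : Node Om} (hw : ∀ n, (z n).Le w)
    (hD : w.D = ⋃ n, (z n).D) {a b r : ℝ} (hR : ∀ n, Room (z n) a b r) : Room w a b r := by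
  intro ξ hξ
  rw [hD] at hξ
  obtain ⟨n, hn⟩ := mem_iUnion.1 hξ
  rw [((hw n).2 ξ hn).1, ((hw n).2 ξ hn).2]
  exact hR n ξ hn

/-- Fills of interleaved nodes converge to the fill of the union. -/
lemma tendsto_fill {w : Node Om} {y : ℕ → Node Om} (hy : ∀ n, (y n).Le w)
    (hD : ∀ ξ ∈ w.D, ∀ᶠ n in atTop, ξ ∈ (y n).D) (v : ℝ) :
    Tendsto (fun n => fillFun (y n) v) atTop (𝓝 (fillFun w v)) := by
  rw [tendsto_pi_nhds]
  intro ξ
  apply tendsto_const_nhds.congr'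
  by_cases hξ : ξ ∈ w.D
  · filter_upwards [hD ξ hξ] with n hn
    rw [fillFun_in hξ, fillFun_in hn, ((hy n).2 ξ hn).1, ((hy n).2 ξ hn).2]
  · filter_upwards with n
    rw [fillFun_out hξ, fillFun_out (fun h => hξ ((hy n).1 h))]

lemma tendsto_fill' {w : Node Om} {y : ℕ → Node Om} (hy : ∀ n, (y n).Le w)
    (hD : ∀ ξ ∈ w.D, ∀ᶠ n in atTop, ξ ∈ (y n).D) (v : ℝ) (p : ℕ → Fsp Om) (q : Fsp Om)
    (hp : ∀ n, (p n).1 = fillFun (y n) v) (hq : q.1 = fillFun w v) :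
    Tendsto p atTop (𝓝 q) := by
  rw [isInducing_val.tendsto_nhds_iff]
  have : ((fun x : Fsp Om => x.1) ∘ p) = fun n => fillFun (y n) v := funext hp
  rw [this, hq]
  exact tendsto_fill hy hD v

/-- Fusion: countably many continuous functions with the property `PP` are frozen together. -/
lemma fusion {h : ℕ → Fsp Om → ℝ} (hc : ∀ n, Continuous (h n)) (hP : ∀ n, PP (h n))
    {a b r' r : ℝ} {u : Node Om} (ha : 0 ≤ a) (hab : a ≤ b) (hb : b ≤ 1) (hr' : 0 < r')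
    (hrr : r' < r) (hr : r ≤ 1) (hR : Room u a b r) :
    ∃ z : Node Om, u.Le z ∧ Room z a b r' ∧
      ∀ n, ∀ (x y : Fsp Om) (v w : ℝ), v ∈ Icc a b → w ∈ Icc a b → x.1 = fillFun z v →
        y.1 = fillFun z w → h n x = h n y := by
  classical
  -- the states: nodes with room
  let rr : ℕ → ℝ := fun n => r' + (r - r') / 2 ^ n
  have hrr0 : rr 0 = r := by simp [rr]
  have hrrdec : ∀ n, rr (n + 1) < rr n := by
    intro n
    have : (0:ℝ) < (r - r') / 2 ^ n := by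
      apply div_pos (by linarith); positivity
    simp only [rr, pow_succ]
    have h2 : (r - r') / (2 ^ n * 2) = (r - r') / 2 ^ n / 2 := by rw [div_div]
    rw [h2]; linarith
  have hrrpos : ∀ n, r' < rr n := by
    intro n
    have : (0:ℝ) < (r - r') / 2 ^ n := by
      apply div_pos (by linarith); positivity
    simp only [rr]; linarith
  have hrrle : ∀ n, rr n ≤ 1 := by
    intro n
    induction n with
    | zero => rw [hrr0]; exact hr
    | succ n ih => exact (hrrdec n).le.trans ih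
  have step : ∀ (n : ℕ) (z : Node Om), Room z a b (rr n) → ∃ z' : Node Om, z.Le z' ∧
      Room z' a b (rr (n + 1)) ∧ ∀ (x y : Fsp Om) (v w : ℝ), v ∈ Icc a b → w ∈ Icc a b →
        x.1 = fillFun z' v → y.1 = fillFun z' w → h (Nat.unpair n).1 x = h (Nat.unpair n).1 y :=
    fun n z hz => hP _ a b (rr (n + 1)) (rr n) z ha hab hb (hr'.trans (hrrpos _)) (hrrdec n)
      (hrrle n) hz
  choose! nxt hn1 hn2 hn3 using step
  let zz : ℕ → Node Om := fun n => Nat.rec u (fun n z => nxt n z) n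
  have hzs : ∀ n, zz (n + 1) = nxt n (zz n) := fun n => rfl
  have hzR : ∀ n, Room (zz n) a b (rr n) := by
    intro n
    induction n with
    | zero => simpa [zz, hrr0] using hR
    | succ n ih => rw [hzs]; exact hn2 n _ ih
  have hzle : ∀ n, (zz n).Le (zz (n + 1)) := fun n => by rw [hzs]; exact hn1 n _ (hzR n)
  obtain ⟨z, hz, hD⟩ := exists_union hzle
  have hRz : Room z a b r' := room_union hz hD fun n => (hzR n).mono (hrrpos n).le
  refine ⟨z, hz 0, hRz, ?_⟩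
  intro n x y v w hv hw hx hy
  -- the subsequence of stages treating `h n`
  let m : ℕ → ℕ := fun k => Nat.pair n k
  have hm : ∀ k, k ≤ m k := fun k => Nat.right_le_pair n k
  have hev : ∀ ξ ∈ z.D, ∀ᶠ k in atTop, ξ ∈ (zz (m k + 1)).D := by
    intro ξ hξ
    rw [hD] at hξ
    obtain ⟨j, hj⟩ := mem_iUnion.1 hξ
    filter_upwards [eventually_ge_atTop j] with k hk
    exact (chain_le hzle (by have := hm k; omega : j ≤ m k + 1)).1 hj
  have mk : ∀ (v : ℝ), v ∈ Icc a b → ∀ k, ∃ p : Fsp Om, p.1 = fillFun (zz (m k + 1)) v := by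
    intro v hv k
    refine ⟨fill (zz (m k + 1)) v (ha.trans hv.1) (hv.2.trans hb) ?_, rfl⟩
    intro ξ hξ
    have := (hzR (m k + 1)).val hv ξ hξ
    linarith [hrrpos (m k + 1)]
  choose px hpx using mk v hv
  choose py hpy using mk w hw
  have tx := tendsto_fill' (fun k => hz (m k + 1)) hev v px x hpx hx
  have ty := tendsto_fill' (fun k => hz (m k + 1)) hev w py y hpy hy
  have tx' := ((hc n).tendsto x).comp tx
  have ty' := ((hc n).tendsto y).comp ty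
  refine tendsto_nhds_unique tx' (ty'.congr fun k => ?_)
  have h3 := hn3 (m k) (zz (m k)) (hzR (m k)) (px k) (py k) v w hv hw
    (by rw [hpx, hzs]) (by rw [hpy, hzs])
  simp only [m, Nat.unpair_pair] at h3
  exact h3.symm

lemma PP.of_seq {h : ℕ → Fsp Om → ℝ} (hc : ∀ n, Continuous (h n)) (hP : ∀ n, PP (h n))
    {g : Fsp Om → ℝ} (hg : ∀ x y, (∀ n, h n x = h n y) → g x = g y) : PP g := by
  intro a b r' r u ha hab hb hr' hrr hr hR
  obtain ⟨z, h1, h2, h3⟩ := fusion hc hP ha hab hb hr' hrr hr hR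
  exact ⟨z, h1, h2, fun x y v w hv hw hx hy => hg x y fun n => h3 n x y v w hv hw hx hy⟩

lemma PP.of_countable {g : Fsp Om → ℝ} {E : Set Om} (hE : E.Countable) (hlow : IsLowerSet E)
    (hg : ∀ x y : Fsp Om, (∀ ξ ∈ E, x.1 ξ = y.1 ξ) → g x = g y) : PP g := by
  intro a b r' r u ha hab hb hr' hrr hr hR
  obtain ⟨z, h1, h2, h3, _⟩ := ext_node ha hab hb hR hr' hrr hr (hE.union u.cD)
    (hlow.union u.low) subset_union_right
  refine ⟨z, h1, h3, fun x y v w _ _ hx hy => hg x y fun ξ hξ => ?_⟩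
  have hz : ξ ∈ z.D := by rw [h2]; exact Or.inl hξ
  rw [hx, hy, fillFun_in hz, fillFun_in hz]

/-- Basic neighbourhoods. -/
def nb (x : Fsp Om) (E : Finset Om) (e : ℝ) : Set (Fsp Om) :=
  {y | ∀ ξ ∈ E, |(y.1 ξ).1 - (x.1 ξ).1| < e ∧ |(y.1 ξ).2 - (x.1 ξ).2| < e}

lemma nb_anti {x : Fsp Om} {E E' : Finset Om} {e e' : ℝ} (h : E ⊆ E') (he : e' ≤ e) :
    nb x E' e' ⊆ nb x E e := fun _ hy ξ hξ =>
  ⟨(hy ξ (h hξ)).1.trans_le he, (hy ξ (h hξ)).2.trans_le he⟩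

lemma exists_min_pos {ι : Type} (E : Finset ι) (ε : ι → ℝ) (hε : ∀ i, 0 < ε i) :
    ∃ e : ℝ, 0 < e ∧ ∀ i ∈ E, e ≤ ε i := by
  classical
  induction E using Finset.induction_on with
  | empty => exact ⟨1, one_pos, by simp⟩
  | insert ξ E _ ih =>
    obtain ⟨e, he, hle⟩ := ih
    exact ⟨min e (ε ξ), lt_min he (hε ξ), fun η hη => by
      rcases Finset.mem_insert.1 hη with rfl | h
      · exact min_le_right _ _
      · exact (min_le_left _ _).trans (hle η h)⟩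

lemma mem_nhds_nb {x : Fsp Om} {U : Set (Fsp Om)} (hU : U ∈ 𝓝 x) :
    ∃ (E : Finset Om) (e : ℝ), 0 < e ∧ nb x E e ⊆ U := by
  classical
  rw [isInducing_val.nhds_eq_comap, mem_comap] at hU
  obtain ⟨V, hV, hVU⟩ := hU
  rw [nhds_pi, Filter.mem_pi'] at hV
  obtain ⟨E, t, ht, hE⟩ := hV
  have key : ∀ ξ : Om, ∃ e : ℝ, 0 < e ∧ Metric.ball (x.1 ξ) e ⊆ t ξ := fun ξ =>
    Metric.mem_nhds_iff.1 (ht ξ)
  choose ε hε hball using key
  obtain ⟨e, he, hle⟩ := exists_min_pos E ε hε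
  refine ⟨E, e, he, fun y hy => hVU (hE ?_)⟩
  intro ξ hξ
  apply hball ξ
  rw [Metric.mem_ball, Prod.dist_eq, Real.dist_eq, Real.dist_eq]
  have := hy ξ hξ
  exact (max_lt this.1 this.2).trans_le (hle ξ hξ)

lemma nb_mem_nhds (x : Fsp Om) (E : Finset Om) {e : ℝ} (he : 0 < e) : nb x E e ∈ 𝓝 x := by
  have : nb x E e = ⋂ ξ ∈ E, {y : Fsp Om | |(y.1 ξ).1 - (x.1 ξ).1| < e ∧
      |(y.1 ξ).2 - (x.1 ξ).2| < e} := by
    ext y; simp [nb]
  rw [this]
  rw [Filter.biInter_finset_mem]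
  intro ξ _
  have hc : Continuous fun y : Fsp Om => y.1 ξ :=
    (continuous_apply ξ).comp continuous_subtype_val
  have : IsOpen {y : Fsp Om | |(y.1 ξ).1 - (x.1 ξ).1| < e ∧ |(y.1 ξ).2 - (x.1 ξ).2| < e} := by
    apply IsOpen.and
    · exact isOpen_lt (hc.fst.sub continuous_const).abs continuous_const
    · exact isOpen_lt (hc.snd.sub continuous_const).abs continuous_const
  exact this.mem_nhds (by simp [he])

end Pool.MPd80aff
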