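import Mathlib

/-!
Definitions for the problem MP_d80aff_gt: large compactifications and the property (**).
-/

open Set Topology

namespace Pool.MPd80aff

universe u

/-- `j : Y → K` is a Stone-Cech compactification of `Y`: some homeomorphism from the Stone-Cech
compactification of `Y` onto `K` carries the canonical map `Y → StoneCech Y` to `j`. -/
def IsBeta {Y K : Type u} [TopologicalSpace Y] [TopologicalSpace K] (j : Y → K) : Prop :=
  ∃ φ : StoneCech Y ≃ₜ K, ∀ y, φ (stoneCechUnit y) = j y

/-- The compactification `i : X → K` is large: for every open subset `V` of `K` containing the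
image of `X`, the space `K` is the Stone-Cech compactification of `V` (through the inclusion). -/
def IsLarge {X K : Type u} [TopologicalSpace K] (i : X → K) : Prop :=
  ∀ V : Set K, IsOpen V → range i ⊆ V → IsBeta (Subtype.val : V → K)

/-- The subset `S` is `G_δ`-closed in `K`. -/
def IsGdeltaClosedIn {K : Type u} [TopologicalSpace K] (S : Set K) : Prop :=
  ∀ y, y ∉ S → ∃ G : Set K, IsGδ G ∧ y ∈ G ∧ Disjoint G S

/-- The property (**): every large compactification `K` of `X` in which `X` is `G_δ`-closed is the
Stone-Cech compactification of `X`. -/
def StarStar (X : Type u) [TopologicalSpace X] : Prop :=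
  ∀ (K : Type u) [TopologicalSpace K] [CompactSpace K] [T2Space K] (i : X → K),
    IsEmbedding i → DenseRange i → IsLarge i → IsGdeltaClosedIn (range i) → IsBeta i

end Pool.MPd80aff
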