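import Pool.Agent.MP_d80aff_gt.Abstract

open Set Topology Filter

namespace Pool.MPd80aff

lemma isBeta_of_approx {Y K : Type} [TopologicalSpace Y] [TopologicalSpace K] [CompactSpace K]
    [T2Space K] (v : Y → K) (hv : Continuous v) (hd : DenseRange v)
    (hext : ∀ ψ : Y → ℝ, Continuous ψ → (∀ y, ψ y ∈ Icc (0:ℝ) 1) →
      ∃ φ : K → ℝ, Continuous φ ∧ ∀ y, |φ (v y) - ψ y| ≤ 1 / 3) : IsBeta v := by
  have hΦc : Continuous (stoneCechExtend hv) := continuous_stoneCechExtend hv
  have hΦu : ∀ y, stoneCechExtend hv (stoneCechUnit y) = v y := fun y =>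
    congrFun (stoneCechExtend_extends hv) y
  have hsurj : Function.Surjective (stoneCechExtend hv) := by
    rw [← range_eq_univ]
    have hcl : IsClosed (range (stoneCechExtend hv)) := (isCompact_range hΦc).isClosed
    have hsub : range v ⊆ range (stoneCechExtend hv) := by
      rintro _ ⟨y, rfl⟩; exact ⟨_, hΦu y⟩
    have := hcl.closure_subset_iff.2 hsub
    rw [hd.closure_range] at this
    exact univ_subset_iff.1 this
  have hinj : Function.Injective (stoneCechExtend hv) := by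
    intro s t hst
    by_contra hne
    obtain ⟨f, hf0, hf1, hf2⟩ := exists_continuous_zero_one_of_isClosed
      (isClosed_singleton (x := s)) (isClosed_singleton (x := t))
      (by simpa using hne)
    obtain ⟨φ, hφc, hφ⟩ := hext (fun y => f (stoneCechUnit y))
      (f.continuous.comp continuous_stoneCechUnit) (fun y => hf2 _)
    have hle : ∀ z, |φ (stoneCechExtend hv z) - f z| ≤ 1 / 3 := by
      intro z
      have hcl : IsClosed {z | |φ (stoneCechExtend hv z) - f z| ≤ 1 / 3} :=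
        isClosed_le ((hφc.comp hΦc).sub f.continuous).abs continuous_const
      have hsub : range (stoneCechUnit : Y → StoneCech Y) ⊆
          {z | |φ (stoneCechExtend hv z) - f z| ≤ 1 / 3} := by
        rintro _ ⟨y, rfl⟩
        change |φ (stoneCechExtend hv (stoneCechUnit y)) - f (stoneCechUnit y)| ≤ 1 / 3
        rw [hΦu]; exact hφ y
      have := hcl.closure_subset_iff.2 hsub
      rw [denseRange_stoneCechUnit.closure_range] at this
      exact this trivial
    have h1 := abs_le.1 (hle s)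
    have h2 := abs_le.1 (hle t)
    have e0 : f s = 0 := hf0 rfl
    have e1 : f t = 1 := hf1 rfl
    rw [hst, e0] at h1
    rw [e1] at h2
    linarith [h1.2, h2.1]
  refine ⟨Continuous.homeoOfEquivCompactToT2 (f := Equiv.ofBijective _ ⟨hinj, hsurj⟩) hΦc, ?_⟩
  intro y
  exact hΦu y

/-- Lindelöf spaces have the property (**); they even have only one large compactification. -/
theorem isBeta_of_lindelof {X : Type} [TopologicalSpace X] [LindelofSpace X]
    (K : Type) [TopologicalSpace K] [CompactSpace K] [T2Space K] (i : X → K)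
    (hi : IsEmbedding i) (hd : DenseRange i) (hlarge : IsLarge i) : IsBeta i := by
  apply isBeta_of_approx i hi.continuous hd
  intro ψ hψ h01
  rcases isEmpty_or_nonempty X with hX | hX
  · exact ⟨fun _ => 0, continuous_const, fun y => (hX.false y).elim⟩
  -- local functions
  have hw : ∀ x : X, ∃ w : C(K, ℝ), w (i x) = 1 ∧ (∀ k, w k ∈ Icc (0:ℝ) 1) ∧
      ∀ y, w (i y) ≠ 0 → |ψ y - ψ x| ≤ 1 / 3 := by
    intro x
    have hU : {y | |ψ y - ψ x| < 1 / 3} ∈ 𝓝 x := by
      apply IsOpen.mem_nhds (isOpen_lt (hψ.sub continuous_const).abs continuous_const)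
      simp
    rw [hi.isInducing.nhds_eq_comap, mem_comap] at hU
    obtain ⟨V, hV, hVU⟩ := hU
    obtain ⟨V', hV'V, hV'o, hxV'⟩ := mem_nhds_iff.1 hV
    obtain ⟨w, hw0, hw1, hw2⟩ := exists_continuous_zero_one_of_isClosed
      hV'o.isClosed_compl (isClosed_singleton (x := i x)) (by simpa using hxV')
    refine ⟨w, hw1 rfl, hw2, fun y hy => ?_⟩
    by_contra hcon
    apply hy
    apply hw0
    intro hyV
    apply hcon
    exact le_of_lt (hVU (hV'V hyV))
  choose w hw1 hw01 hw2 using hw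
  have hopen : ∀ x, {y | w x (i y) ≠ 0} ∈ 𝓝 x := by
    intro x
    apply IsOpen.mem_nhds
    · exact isOpen_ne.preimage ((w x).continuous.comp hi.continuous)
    · change w x (i x) ≠ 0
      rw [hw1]; exact one_ne_zero
  obtain ⟨t, ht, _, hcov⟩ := (isLindelof_univ (X := X)).elim_nhds_subcover
    (fun x => {y | w x (i y) ≠ 0}) (fun x _ => hopen x)
  have htne : t.Nonempty := by
    obtain ⟨x⟩ := hX
    have := hcov (mem_univ x)
    obtain ⟨z, hz, _⟩ := mem_iUnion₂.1 this
    exact ⟨z, hz⟩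
  obtain ⟨f, hf⟩ := ht.exists_eq_range htne
  have hpos : ∀ n k, 0 ≤ (1 / 2 : ℝ) ^ n * w (f n) k := fun n k =>
    mul_nonneg (by positivity) (hw01 _ _).1
  have hle : ∀ n k, (1 / 2 : ℝ) ^ n * w (f n) k ≤ (1 / 2) ^ n := fun n k => by
    have : (0:ℝ) ≤ (1 / 2) ^ n := by positivity
    nlinarith [(hw01 (f n) k).2]
  have hgeo : Summable fun n : ℕ => (1 / 2 : ℝ) ^ n := summable_geometric_two
  have hsum : ∀ k, Summable fun n => (1 / 2 : ℝ) ^ n * w (f n) k := fun k =>
    Summable.of_nonneg_of_le (fun n => hpos n k) (fun n => hle n k) hgeo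
  have hpos' : ∀ n k, 0 ≤ (1 / 2 : ℝ) ^ n * w (f n) k * ψ (f n) := fun n k =>
    mul_nonneg (hpos n k) (h01 _).1
  have hle' : ∀ n k, (1 / 2 : ℝ) ^ n * w (f n) k * ψ (f n) ≤ (1 / 2 : ℝ) ^ n * w (f n) k :=
    fun n k => by nlinarith [hpos n k, (h01 (f n)).2]
  have hsum' : ∀ k, Summable fun n => (1 / 2 : ℝ) ^ n * w (f n) k * ψ (f n) := fun k =>
    Summable.of_nonneg_of_le (fun n => hpos' n k) (fun n => hle' n k) (hsum k)
  let S : K → ℝ := fun k => ∑' n, (1 / 2 : ℝ) ^ n * w (f n) k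
  let T : K → ℝ := fun k => ∑' n, (1 / 2 : ℝ) ^ n * w (f n) k * ψ (f n)
  have hSc : Continuous S := by
    apply continuous_tsum (fun n => continuous_const.mul (w (f n)).continuous) hgeo
    intro n k
    change ‖(1 / 2 : ℝ) ^ n * w (f n) k‖ ≤ _
    rw [Real.norm_of_nonneg (hpos n k)]
    exact hle n k
  have hTc : Continuous T := by
    apply continuous_tsum
      (fun n => (continuous_const.mul (w (f n)).continuous).mul continuous_const) hgeo
    intro n k
    change ‖(1 / 2 : ℝ) ^ n * w (f n) k * ψ (f n)‖ ≤ _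
    rw [Real.norm_of_nonneg (hpos' n k)]
    exact (hle' n k).trans (hle n k)
  have hSi : ∀ y, 0 < S (i y) := by
    intro y
    have := hcov (mem_univ y)
    obtain ⟨z, hz, hz2⟩ := mem_iUnion₂.1 this
    rw [hf] at hz
    obtain ⟨n, rfl⟩ := hz
    have hz3 : w (f n) (i y) ≠ 0 := hz2
    have h1 : 0 < (1 / 2 : ℝ) ^ n * w (f n) (i y) :=
      mul_pos (by positivity) (lt_of_le_of_ne (hw01 _ _).1 hz3.symm)
    exact lt_of_lt_of_le h1 ((hsum (i y)).le_tsum n fun m _ => hpos m _)
  have hT0 : ∀ k, 0 ≤ T k := fun k => tsum_nonneg fun n => hpos' n k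
  have hTS : ∀ k, T k ≤ S k := fun k => (hsum' k).tsum_le_tsum (fun n => hle' n k) (hsum k)
  have happ : ∀ y, |T (i y) - ψ y * S (i y)| ≤ 1 / 3 * S (i y) := by
    intro y
    have hs1 : Summable fun n => (1 / 2 : ℝ) ^ n * w (f n) (i y) * ψ (f n) -
        ψ y * ((1 / 2 : ℝ) ^ n * w (f n) (i y)) := (hsum' (i y)).sub ((hsum (i y)).mul_left _)
    have h1 : T (i y) - ψ y * S (i y) = ∑' n, ((1 / 2 : ℝ) ^ n * w (f n) (i y) * ψ (f n) -
        ψ y * ((1 / 2 : ℝ) ^ n * w (f n) (i y))) := by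
      rw [(hsum' (i y)).tsum_sub ((hsum (i y)).mul_left _), tsum_mul_left]
    have hb : ∀ n, |(1 / 2 : ℝ) ^ n * w (f n) (i y) * ψ (f n) -
        ψ y * ((1 / 2 : ℝ) ^ n * w (f n) (i y))| ≤
          1 / 3 * ((1 / 2 : ℝ) ^ n * w (f n) (i y)) := by
      intro n
      have e : (1 / 2 : ℝ) ^ n * w (f n) (i y) * ψ (f n) -
        ψ y * ((1 / 2 : ℝ) ^ n * w (f n) (i y)) =
          ((1 / 2 : ℝ) ^ n * w (f n) (i y)) * (ψ (f n) - ψ y) := by ring
      rw [e, abs_mul, abs_of_nonneg (hpos n (i y)), mul_comm (1 / 3)]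
      by_cases h0 : w (f n) (i y) = 0
      · rw [h0]; simp
      · apply mul_le_mul_of_nonneg_left _ (hpos n (i y))
        rw [abs_sub_comm]
        exact hw2 (f n) y h0
    rw [h1, ← tsum_mul_left]
    rw [← Real.norm_eq_abs]
    have hs2 : Summable fun n => 1 / 3 * ((1 / 2 : ℝ) ^ n * w (f n) (i y)) :=
      (hsum (i y)).mul_left _
    exact tsum_of_norm_bounded hs2.hasSum hb
  -- extend from `V`
  let V : Set K := {k | 0 < S k}
  have hVo : IsOpen V := isOpen_lt continuous_const hSc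
  have hb := hlarge V hVo (by rintro _ ⟨y, rfl⟩; exact hSi y)
  obtain ⟨φ, hφc, hφ⟩ := ext_of_isBeta hb (fun k => T k.1 / S k.1)
    ((hTc.comp continuous_subtype_val).div (hSc.comp continuous_subtype_val)
      fun k => ne_of_gt k.2)
    (fun k => by
      have hk : 0 < S k.1 := k.2
      exact ⟨div_nonneg (hT0 _) hk.le, (div_le_one hk).2 (hTS _)⟩)
  refine ⟨φ, hφc, fun y => ?_⟩
  have h1 : φ (i y) = T (i y) / S (i y) := hφ ⟨i y, hSi y⟩
  rw [h1]
  have h2 : T (i y) / S (i y) - ψ y = (T (i y) - ψ y * S (i y)) / S (i y) := by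
    field_simp [(hSi y).ne']
  rw [h2, abs_div, abs_of_pos (hSi y), div_le_iff₀ (hSi y)]
  exact happ y

theorem starStar_of_lindelof (X : Type) [TopologicalSpace X] [LindelofSpace X] : StarStar X :=
  fun K _ _ _ i hi hd hl _ => isBeta_of_lindelof K i hi hd hl

end Pool.MPd80aff
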