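import Pool.Agent.MP_d80aff_gt.Concrete
import Pool.Agent.MP_d80aff_gt.Lind

open Set Topology Filter

namespace Pool.MPd80aff

/-- The well-ordered type of order type `ω₁`. -/
abbrev Om1 : Type := (Cardinal.aleph 1).ord.ToType

lemma om1_mk : Cardinal.mk Om1 = Cardinal.aleph 1 := by
  rw [Cardinal.mk_toType, Cardinal.card_ord]

instance om1_noMax : NoMaxOrder Om1 :=
  Cardinal.noMaxOrder (Cardinal.aleph0_le_aleph 1)

instance om1_unc : Uncountable Om1 := by
  rw [← Cardinal.aleph0_lt_mk_iff, om1_mk]
  exact Cardinal.aleph0_lt_aleph_one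

lemma om1_Iic (ξ : Om1) : (Iic ξ).Countable := by
  obtain ⟨η, hη⟩ := exists_gt ξ
  have h1 : Iic ξ ⊆ Iio η := fun x hx => lt_of_le_of_lt hx hη
  refine Countable.mono h1 ?_
  rw [← Cardinal.le_aleph0_iff_set_countable]
  have h2 : Cardinal.mk (Iio η) < Cardinal.aleph 1 := by
    have := Cardinal.mk_Iio_lt η (by simp)
    rwa [om1_mk] at this
  exact Order.lt_succ_iff.1 (h2.trans_eq Cardinal.succ_aleph0.symm)

/-- Uncountable powers of the real line fail (**). -/
theorem not_starStar_pow (I : Type) [Uncountable I] : ¬ StarStar (I → ℝ) := by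
  have hcard : Cardinal.mk (Idx Om1) ≤ Cardinal.mk I := by
    have h1 : Cardinal.aleph 1 ≤ Cardinal.mk I := by
      rw [← Cardinal.succ_aleph0]
      exact Order.succ_le_of_lt (Cardinal.aleph0_lt_mk_iff.2 inferInstance)
    refine le_trans ?_ h1
    have h2 : Cardinal.aleph0 ≤ Cardinal.aleph 1 := Cardinal.aleph0_le_aleph 1
    have hprod : Cardinal.mk (Om1 × Om1 × ℕ) ≤ Cardinal.aleph 1 := by
      simp only [Cardinal.mk_prod, Cardinal.lift_id, om1_mk, Cardinal.mk_nat]
      rw [Cardinal.mul_eq_left h2 h2 Cardinal.aleph0_ne_zero]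
      rw [Cardinal.mul_eq_self h2]
    have hsum : ∀ A B : Type, Cardinal.mk A ≤ Cardinal.aleph 1 → Cardinal.mk B ≤ Cardinal.aleph 1 →
        Cardinal.mk (A ⊕ B) ≤ Cardinal.aleph 1 := by
      intro A B hA hB
      simp only [Cardinal.mk_sum, Cardinal.lift_id]
      calc _ ≤ Cardinal.aleph 1 + Cardinal.aleph 1 := add_le_add hA hB
        _ = _ := Cardinal.add_eq_self h2
    apply hsum
    · exact hsum _ _ om1_mk.le om1_mk.le
    · apply hsum _ _ hprod
      rw [Cardinal.mk_unit]
      exact le_trans Cardinal.one_le_aleph0 h2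
  obtain ⟨g⟩ := hcard
  have : Nonempty (Idx Om1) := ⟨Sum.inr (Sum.inr ())⟩
  exact not_starStar_aux om1_Iic (Function.invFun g) (Function.invFun_surjective g.injective)

/-- A power of the real line has the property (**) exactly when the exponent is countable. -/
theorem starStar_pow_iff (I : Type) : StarStar (I → ℝ) ↔ Countable I := by
  constructor
  · intro h
    by_contra hI
    have : Uncountable I := not_countable_iff.1 hI
    exact not_starStar_pow I h
  · intro hI
    exact starStar_of_lindelof (I → ℝ)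

/-- Functions extend under a homeomorphism. -/
lemma isBeta_of_homeo {X X' K : Type} [TopologicalSpace X] [TopologicalSpace X']
    [TopologicalSpace K] [CompactSpace K] [T2Space K] (h : X ≃ₜ X') {i : X' → K}
    (hi : IsEmbedding i) (hd : DenseRange i) (hb : IsBeta (fun x => i (h x))) : IsBeta i := by
  apply isBeta_of_ext i hi.continuous hd
  intro ψ hψ h01
  obtain ⟨φ, hφc, hφ⟩ := ext_of_isBeta hb (fun x => ψ (h x)) (hψ.comp h.continuous)
    (fun x => h01 _)
  refine ⟨φ, hφc, fun y => ?_⟩
  have := hφ (h.symm y)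
  simpa using this

lemma starStar_congr {X X' : Type} [TopologicalSpace X] [TopologicalSpace X'] (h : X ≃ₜ X')
    (hX : StarStar X) : StarStar X' := by
  intro K _ _ _ i hi hd hl hg
  have hr : range (fun x => i (h x)) = range i := by
    ext k; constructor
    · rintro ⟨x, rfl⟩; exact ⟨_, rfl⟩
    · rintro ⟨x, rfl⟩; exact ⟨h.symm x, by simp⟩
  apply isBeta_of_homeo h hi hd
  apply hX K (fun x => i (h x)) (hi.comp h.isEmbedding)
  · change Dense (range fun x => i (h x))
    rw [hr]; exact hd
  · intro V hV hrV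
    exact hl V hV (by rw [← hr]; exact hrV)
  · rw [hr]; exact hg

/-- Disjoint sums of completely regular spaces. -/
lemma t35_sum {P Y : Type} [TopologicalSpace P] [TopologicalSpace Y] [T35Space P] [T35Space Y] :
    T35Space (P ⊕ Y) := by
  have : CompletelyRegularSpace (P ⊕ Y) := by
    constructor
    intro x C hC hx
    rcases x with p | y
    · obtain ⟨f, hf, hf0, hf1⟩ := CompletelyRegularSpace.completely_regular p
        (Sum.inl ⁻¹' C) (hC.preimage continuous_inl) hx
      refine ⟨Sum.elim f (fun _ => 1), hf.sumElim continuous_const, hf0, ?_⟩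
      rintro (z | z) hz
      · exact hf1 hz
      · rfl
    · obtain ⟨f, hf, hf0, hf1⟩ := CompletelyRegularSpace.completely_regular y
        (Sum.inr ⁻¹' C) (hC.preimage continuous_inr) hx
      refine ⟨Sum.elim (fun _ => 1) f, continuous_const.sumElim hf, hf0, ?_⟩
      rintro (z | z) hz
      · rfl
      · exact hf1 hz
  exact {}

/-- A space all of whose sequences lie in compact sets. -/
def OmegaBounded (Y : Type) [TopologicalSpace Y] : Prop :=
  ∀ f : ℕ → Y, ∃ C : Set Y, IsCompact C ∧ ∀ n, f n ∈ C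

/-- `G_δ`-density of such a space in its closure. -/
lemma omegaBounded_meets {Y K : Type} [TopologicalSpace Y] [TopologicalSpace K] [CompactSpace K]
    [T2Space K] (hY : OmegaBounded Y) {m : Y → K} (hm : Continuous m) {z : K}
    (hz : z ∈ closure (range m)) {G : Set K} (hG : IsGδ G) (hzG : z ∈ G) :
    ∃ y, m y ∈ G := by
  obtain ⟨O, hO, rfl⟩ := isGδ_iff_eq_iInter_nat.1 hG
  have hu : ∀ n, ∃ u : C(K, ℝ), u z = 0 ∧ (∀ k, u k ∈ Icc (0:ℝ) 1) ∧ ∀ k, k ∉ O n → u k = 1 := by
    intro n
    have hzn : z ∈ O n := mem_iInter.1 hzG n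
    obtain ⟨u, hu0, hu1, hu2⟩ := exists_continuous_zero_one_of_isClosed
      (isClosed_singleton (x := z)) (hO n).isClosed_compl
      (by rw [Set.disjoint_left]; rintro _ rfl h; exact h hzn)
    exact ⟨u, hu0 rfl, hu2, fun k hk => hu1 hk⟩
  choose u hu0 hu01 hu1 using hu
  have hpos : ∀ n k, 0 ≤ (1 / 2 : ℝ) ^ n * u n k := fun n k =>
    mul_nonneg (by positivity) (hu01 _ _).1
  have hle : ∀ n k, (1 / 2 : ℝ) ^ n * u n k ≤ (1 / 2) ^ n := fun n k => by
    have : (0:ℝ) ≤ (1 / 2) ^ n := by positivity
    nlinarith [(hu01 n k).2]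
  have hgeo : Summable fun n : ℕ => (1 / 2 : ℝ) ^ n := summable_geometric_two
  have hsum : ∀ k, Summable fun n => (1 / 2 : ℝ) ^ n * u n k := fun k =>
    Summable.of_nonneg_of_le (fun n => hpos n k) (fun n => hle n k) hgeo
  let S : K → ℝ := fun k => ∑' n, (1 / 2 : ℝ) ^ n * u n k
  have hSc : Continuous S := by
    apply continuous_tsum (fun n => continuous_const.mul (u n).continuous) hgeo
    intro n k
    change ‖(1 / 2 : ℝ) ^ n * u n k‖ ≤ _
    rw [Real.norm_of_nonneg (hpos n k)]
    exact hle n k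
  have hSz : S z = 0 := by simp [S, hu0]
  have hS0 : ∀ k, 0 ≤ S k := fun k => tsum_nonneg fun n => hpos n k
  have hSG : ∀ k, S k = 0 → k ∈ ⋂ n, O n := by
    intro k hk
    rw [mem_iInter]
    intro n
    by_contra hn
    have h1 : (1 / 2 : ℝ) ^ n * u n k ≤ S k := (hsum k).le_tsum n fun m _ => hpos m _
    rw [hk, hu1 n k hn, mul_one] at h1
    have : (0:ℝ) < (1 / 2) ^ n := by positivity
    linarith
  have happ : ∀ n : ℕ, ∃ y, S (m y) < 1 / ((n : ℝ) + 1) := by
    intro n
    have hop : IsOpen {k | S k < 1 / ((n : ℝ) + 1)} := isOpen_lt hSc continuous_const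
    have hzm : z ∈ {k | S k < 1 / ((n : ℝ) + 1)} := by
      change S z < _
      rw [hSz]; exact Nat.one_div_pos_of_nat
    obtain ⟨_, h1, y, rfl⟩ := mem_closure_iff.1 hz _ hop hzm
    exact ⟨y, h1⟩
  choose f hf using happ
  obtain ⟨C, hC, hfC⟩ := hY f
  obtain ⟨y, _, hmin⟩ := hC.exists_isMinOn ⟨f 0, hfC 0⟩ (hSc.comp hm).continuousOn
  refine ⟨y, hSG _ ?_⟩
  apply le_antisymm _ (hS0 _)
  by_contra hcon
  push Not at hcon
  obtain ⟨n, hn⟩ := exists_nat_one_div_lt hcon
  have h1 : S (m y) ≤ S (m (f n)) := hmin (hfC n)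
  linarith [hf n]

/-- Adding a noncompact space all of whose sequences lie in compact sets gives the property (**)
for trivial reasons. -/
lemma starStar_sum {P Y : Type} [TopologicalSpace P] [TopologicalSpace Y]
    (hY : OmegaBounded Y) (hnc : ¬ CompactSpace Y) : StarStar (P ⊕ Y) := by
  intro K _ _ _ i hi hd hl hg
  exfalso
  let m : Y → K := fun y => i (Sum.inr y)
  have hme : IsEmbedding m := hi.comp IsEmbedding.inr
  have hncl : ¬ IsClosed (range m) := by
    intro hcl
    apply hnc
    have hcm : IsCompact (range m) := hcl.isCompact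
    rw [← isCompact_univ_iff]
    rw [← image_univ] at hcm
    exact hme.isInducing.isCompact_iff.2 hcm
  have hex : ∃ z, z ∈ closure (range m) ∧ z ∉ range m := by
    by_contra hcon
    push Not at hcon
    exact hncl (closure_subset_iff_isClosed.1 hcon)
  obtain ⟨z, hz1, hz2⟩ := hex
  have hz3 : z ∉ range i := by
    rintro ⟨x, rfl⟩
    rcases x with p | y
    · -- the summand `P` is relatively open
      have hop : IsOpen (range (Sum.inl : P → P ⊕ Y)) := isOpen_range_inl
      obtain ⟨W, hW, hWeq⟩ := hi.isInducing.isOpen_iff.1 hop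
      have hpW : i (Sum.inl p) ∈ W := by
        have : Sum.inl p ∈ i ⁻¹' W := by rw [hWeq]; exact ⟨p, rfl⟩
        exact this
      obtain ⟨_, h1, y, rfl⟩ := mem_closure_iff.1 hz1 _ hW hpW
      have h2 : (Sum.inr y : P ⊕ Y) ∈ i ⁻¹' W := h1
      rw [hWeq] at h2
      obtain ⟨q, hq⟩ := h2
      exact Sum.inl_ne_inr hq
    · exact hz2 ⟨y, rfl⟩
  obtain ⟨G, hG, hzG, hdis⟩ := hg z hz3
  obtain ⟨y, hy⟩ := omegaBounded_meets hY hme.continuous hz1 hG hzG
  exact Set.disjoint_left.1 hdis hy ⟨_, rfl⟩

/-- Functions with countable support. -/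
abbrev CSupp : Type := {x : ℝ → Bool // {t | x t = true}.Countable}

lemma csupp_omega : OmegaBounded CSupp := by
  intro f
  let S : Set ℝ := ⋃ n, {t | (f n).1 t = true}
  have hS : S.Countable := countable_iUnion fun n => (f n).2
  refine ⟨{x | ∀ t ∉ S, x.1 t = false}, ?_, ?_⟩
  · have hind : IsInducing (Subtype.val : CSupp → (ℝ → Bool)) := IsInducing.subtypeVal
    rw [hind.isCompact_iff]
    have heq : Subtype.val '' {x : CSupp | ∀ t ∉ S, x.1 t = false} =
        {x : ℝ → Bool | ∀ t ∉ S, x t = false} := by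
      ext x
      constructor
      · rintro ⟨y, hy, rfl⟩; exact hy
      · intro hx
        refine ⟨⟨x, hS.mono fun t ht => ?_⟩, hx, rfl⟩
        by_contra htS
        have h1 := hx t htS
        have h2 : x t = true := ht
        rw [h1] at h2
        exact absurd h2 (by simp)
    rw [heq]
    apply IsClosed.isCompact
    have : {x : ℝ → Bool | ∀ t ∉ S, x t = false} = ⋂ t ∈ Sᶜ, {x | x t = false} := by
      ext x; simp
    rw [this]
    refine isClosed_biInter fun t _ => ?_
    exact isClosed_eq (continuous_apply t) continuous_const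
  · intro n t ht
    by_contra hcon
    apply ht
    exact mem_iUnion.2 ⟨n, by simpa using hcon⟩

lemma csupp_not_compact : ¬ CompactSpace CSupp := by
  intro h
  have hcont : Continuous (Subtype.val : CSupp → (ℝ → Bool)) := continuous_subtype_val
  have hcl : IsClosed (range (Subtype.val : CSupp → (ℝ → Bool))) :=
    (isCompact_range hcont).isClosed
  have hdense : Dense (range (Subtype.val : CSupp → (ℝ → Bool))) := by
    classical
    intro x
    rw [mem_closure_iff_nhds]
    intro U hU
    rw [nhds_pi, Filter.mem_pi'] at hU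
    obtain ⟨E, t, ht, hE⟩ := hU
    let y : ℝ → Bool := fun s => if s ∈ E then x s else false
    have hy : {s | y s = true}.Countable := by
      refine (Finset.countable_toSet E).mono fun s hs => ?_
      by_contra hsE
      have h1 : y s = false := by
        simp only [y]
        rw [if_neg (by simpa using hsE)]
      have h2 : y s = true := hs
      rw [h1] at h2
      exact absurd h2 (by simp)
    refine ⟨y, hE ?_, ⟨⟨y, hy⟩, rfl⟩⟩
    intro s hs
    have : y s = x s := by simp only [y]; rw [if_pos (by simpa using hs)]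
    rw [this]
    exact mem_of_mem_nhds (ht s)
  have huniv : range (Subtype.val : CSupp → (ℝ → Bool)) = univ := by
    rw [← hcl.closure_eq]; exact hdense.closure_eq
  obtain ⟨y, hy⟩ : (fun _ => true) ∈ range (Subtype.val : CSupp → (ℝ → Bool)) := by
    rw [huniv]; trivial
  have h1 := y.2
  have h2 : {t | y.1 t = true} = (univ : Set ℝ) := by
    ext t; simp [hy]
  rw [h2] at h1
  exact not_countable (countable_univ_iff.1 h1)

end Pool.MPd80aff
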