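import Pool.Agent.MP_d80aff_gt.Core

open Set Topology Filter

namespace Pool.MPd80aff

variable {Om : Type} [LinearOrder Om]

/-- `h` coincides near the fills of `w` with functions having the property `PP`, with uniform
size `e` of the neighbourhoods. -/
def GoodAt (h : Fsp Om → ℝ) (w : Node Om) (a b e : ℝ) : Prop :=
  ∀ v ∈ Icc a b, ∀ x : Fsp Om, x.1 = fillFun w v → ∃ (E : Finset Om) (g : Fsp Om → ℝ),
    PP g ∧ ∀ y ∈ nb x E e, h y = g y

lemma GoodAt.anti {h : Fsp Om → ℝ} {w : Node Om} {a b e e' : ℝ} (H : GoodAt h w a b e)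
    (he : e' ≤ e) : GoodAt h w a b e' := by
  intro v hv x hx
  obtain ⟨E, g, hg, hy⟩ := H v hv x hx
  exact ⟨E, g, hg, fun y h' => hy y (nb_anti (Finset.Subset.refl _) he h')⟩

/-- `h` is locally a function with property `PP`. -/
def LocPP (h : Fsp Om → ℝ) : Prop :=
  ∀ x : Fsp Om, ∃ U ∈ 𝓝 x, ∃ g : Fsp Om → ℝ, PP g ∧ ∀ y ∈ U, h y = g y

lemma fill_snd (w : Node Om) (v v' : ℝ) (ξ : Om) : (fillFun w v ξ).2 = (fillFun w v' ξ).2 := by
  by_cases h : ξ ∈ w.D
  · rw [fillFun_in h, fillFun_in h]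
  · rw [fillFun_out h, fillFun_out h]

lemma fill_fst (w : Node Om) (v v' : ℝ) (ξ : Om) :
    |(fillFun w v ξ).1 - (fillFun w v' ξ).1| ≤ |v - v'| := by
  by_cases h : ξ ∈ w.D
  · rw [fillFun_in h, fillFun_in h]; simp
  · rw [fillFun_out h, fillFun_out h]

/-- Compactness. -/
lemma exists_goodAt {h : Fsp Om → ℝ} (hloc : LocPP h) {w : Node Om} {a b r : ℝ} (ha : 0 ≤ a)
    (hb : b ≤ 1) (hr : 0 ≤ r) (hR : Room w a b r) : ∃ e : ℝ, 0 < e ∧ GoodAt h w a b e := by
  have key : ∃ e : ℝ, 0 < e ∧ ∀ v ∈ Icc a b, v ∈ Icc a b → ∀ x : Fsp Om, x.1 = fillFun w v →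
      ∃ (E : Finset Om) (g : Fsp Om → ℝ), PP g ∧ ∀ y ∈ nb x E e, h y = g y := by
    refine isCompact_Icc.induction_on (p := fun s => ∃ e : ℝ, 0 < e ∧ ∀ v ∈ s, v ∈ Icc a b →
      ∀ x : Fsp Om, x.1 = fillFun w v →
      ∃ (E : Finset Om) (g : Fsp Om → ℝ), PP g ∧ ∀ y ∈ nb x E e, h y = g y) ?_ ?_ ?_ ?_
    · exact ⟨1, one_pos, by simp⟩
    · rintro s t hst ⟨e, he, H⟩
      exact ⟨e, he, fun v hv => H v (hst hv)⟩
    · rintro s t ⟨e, he, H⟩ ⟨e', he', H'⟩
      refine ⟨min e e', lt_min he he', ?_⟩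
      rintro v (hv | hv) hv' x hx
      · obtain ⟨E, g, hg, hy⟩ := H v hv hv' x hx
        exact ⟨E, g, hg, fun y h' => hy y (nb_anti (Finset.Subset.refl _) (min_le_left _ _) h')⟩
      · obtain ⟨E, g, hg, hy⟩ := H' v hv hv' x hx
        exact ⟨E, g, hg, fun y h' => hy y (nb_anti (Finset.Subset.refl _) (min_le_right _ _) h')⟩
    · intro v₀ hv₀
      let x₀ : Fsp Om := fill w v₀ (ha.trans hv₀.1) (hv₀.2.trans hb) (fun ξ hξ => by
        linarith [hR.val hv₀ ξ hξ])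
      obtain ⟨U, hU, g, hg, hgU⟩ := hloc x₀
      obtain ⟨E, e, he, hEU⟩ := mem_nhds_nb hU
      refine ⟨{v | |v - v₀| < e / 2}, ?_, e / 2, by positivity, ?_⟩
      · apply mem_nhdsWithin_of_mem_nhds
        apply IsOpen.mem_nhds
        · exact isOpen_lt (by fun_prop) continuous_const
        · simp [he]
      · intro v hv _ x hx
        refine ⟨E, g, hg, fun y hy => hgU y (hEU ?_)⟩
        intro ξ hξ
        have h1 := hy ξ hξ
        have h2 : |(x.1 ξ).1 - (x₀.1 ξ).1| ≤ |v - v₀| := by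
          rw [hx]; exact fill_fst w v v₀ ξ
        have h3 : (x.1 ξ).2 = (x₀.1 ξ).2 := by rw [hx]; exact fill_snd w v v₀ ξ
        have hv' : |v - v₀| < e / 2 := hv
        constructor
        · calc |(y.1 ξ).1 - (x₀.1 ξ).1| = |((y.1 ξ).1 - (x.1 ξ).1) + ((x.1 ξ).1 - (x₀.1 ξ).1)| := by
                congr 1; ring
            _ ≤ _ := abs_add_le _ _
            _ < e := by linarith [h1.1]
        · rw [← h3]; linarith [h1.2]
  obtain ⟨e, he, H⟩ := key
  exact ⟨e, he, fun v hv => H v hv hv⟩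

/-- Category argument. -/
lemma exists_uniform {h : Fsp Om → ℝ} (hloc : LocPP h) {u : Node Om} {a b r' r : ℝ}
    (ha : 0 ≤ a) (hb : b ≤ 1) (hr' : 0 < r') (hrr : r' < r) (hR : Room u a b r) :
    ∃ (e : ℝ) (w₀ : Node Om) (s' s : ℝ), 0 < e ∧ u.Le w₀ ∧ r' ≤ s' ∧ s' < s ∧ s ≤ r ∧
      Room w₀ a b s ∧ ∀ (w₁ : Node Om) (t' t : ℝ), w₀.Le w₁ → s' < t' → t' < t → t ≤ s →
        Room w₁ a b t → ∃ w₂ : Node Om, w₁.Le w₂ ∧ Room w₂ a b t' ∧ GoodAt h w₂ a b e := by
  by_contra hcon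
  push Not at hcon
  -- the step
  have step : ∀ (n : ℕ) (S : Node Om × ℝ × ℝ),
      (u.Le S.1 ∧ r' ≤ S.2.1 ∧ S.2.1 < S.2.2 ∧ S.2.2 ≤ r ∧ Room S.1 a b S.2.2) →
      ∃ S' : Node Om × ℝ × ℝ, (u.Le S'.1 ∧ r' ≤ S'.2.1 ∧ S'.2.1 < S'.2.2 ∧ S'.2.2 ≤ r ∧
        Room S'.1 a b S'.2.2) ∧ S.1.Le S'.1 ∧ S.2.1 < S'.2.1 ∧ S'.2.2 ≤ S.2.2 ∧
        ∀ w₂ : Node Om, S'.1.Le w₂ → Room w₂ a b S'.2.1 → ¬ GoodAt h w₂ a b (1 / (n + 1)) := by
    rintro n ⟨w, s', s⟩ ⟨h1, h2, h3, h4, h5⟩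
    obtain ⟨w₁, t', t, k1, k2, k3, k4, k5, k6⟩ := hcon (1 / (n + 1)) w s' s
      Nat.one_div_pos_of_nat h1 h2 h3 h4 h5
    exact ⟨(w₁, t', t), ⟨h1.trans k1, h2.trans k2.le, k3, k4.trans h4, k5⟩, k1, k2, k4, k6⟩
  choose! nx hinv hnle hn1 hn2 hn3 using step
  let S : ℕ → Node Om × ℝ × ℝ := fun n => Nat.rec (u, r', r) (fun n z => nx n z) n
  have hS0 : S 0 = (u, r', r) := rfl
  have hSs : ∀ n, S (n + 1) = nx n (S n) := fun n => rfl
  have inv : ∀ n, u.Le (S n).1 ∧ r' ≤ (S n).2.1 ∧ (S n).2.1 < (S n).2.2 ∧ (S n).2.2 ≤ r ∧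
      Room (S n).1 a b (S n).2.2 := by
    intro n
    induction n with
    | zero => exact ⟨Node.Le.refl _, le_refl _, hrr, le_refl _, hR⟩
    | succ n ih => rw [hSs]; exact hinv n _ ih
  have hle : ∀ n, (S n).1.Le (S (n + 1)).1 := fun n => by rw [hSs]; exact hnle n _ (inv n)
  have hlow : ∀ n, (S n).2.1 ≤ (S (n + 1)).2.1 := fun n => by
    rw [hSs]; exact (hn1 n _ (inv n)).le
  have hup : ∀ n, (S (n + 1)).2.2 ≤ (S n).2.2 := fun n => by rw [hSs]; exact hn2 n _ (inv n)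
  have hmono : Monotone fun n => (S n).2.1 := monotone_nat_of_le_succ hlow
  have hanti : Antitone fun n => (S n).2.2 := antitone_nat_of_succ_le hup
  have hcross : ∀ m n, (S m).2.1 ≤ (S n).2.2 := by
    intro m n
    have h1 := hmono (le_max_left m n)
    have h2 := hanti (le_max_right m n)
    have h3 := (inv (max m n)).2.2.1
    simp only at h1 h2
    linarith
  set T : ℝ := ⨆ n, (S n).2.1 with hT
  have hbdd : BddAbove (range fun n => (S n).2.1) := ⟨(S 0).2.2, by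
    rintro _ ⟨n, rfl⟩; exact hcross n 0⟩
  have hT1 : ∀ n, (S n).2.1 ≤ T := fun n => le_ciSup hbdd n
  have hT2 : ∀ n, T ≤ (S n).2.2 := fun n => ciSup_le fun m => hcross m n
  obtain ⟨w, hw, hD⟩ := exists_union hle
  have hRw : Room w a b T := room_union hw hD fun n => ((inv n).2.2.2.2).mono (hT2 n)
  have hTpos : 0 ≤ T := by
    have := hT1 0
    rw [hS0] at this
    simp only at this
    linarith
  obtain ⟨e, he, hgood⟩ := exists_goodAt hloc ha hb hTpos hRw
  obtain ⟨n, hn⟩ := exists_nat_one_div_lt he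
  have := hn3 n (S n) (inv n) w (by rw [← hSs]; exact hw (n + 1))
    (by rw [← hSs]; exact hRw.mono (hT1 (n + 1)))
  exact this (hgood.anti hn.le)

/-- `h` is frozen on the fills of `z` by the values in `[p, q]`. -/
def Frozen (h : Fsp Om → ℝ) (z : Node Om) (p q : ℝ) : Prop :=
  ∀ (x y : Fsp Om) (v w : ℝ), v ∈ Icc p q → w ∈ Icc p q → x.1 = fillFun z v →
    y.1 = fillFun z w → h x = h y

/-- A finite set has a countable lower closure. -/
lemma exists_low (hctbl : ∀ ξ : Om, (Iic ξ).Countable) (E : Finset Om) :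
    ∃ L : Set Om, L.Countable ∧ IsLowerSet L ∧ ∀ ξ ∈ E, ξ ∈ L := by
  refine ⟨⋃ ξ ∈ E, Iic ξ, ?_, ?_, ?_⟩
  · exact Set.Countable.biUnion (Finset.countable_toSet E) fun ξ _ => hctbl ξ
  · exact isLowerSet_iUnion₂ fun ξ _ => isLowerSet_Iic ξ
  · intro ξ hξ
    exact mem_iUnion₂.2 ⟨ξ, hξ, le_refl ξ⟩

/-- One freezing step. -/
lemma freeze (hctbl : ∀ ξ : Om, (Iic ξ).Countable) {h : Fsp Om → ℝ} {w : Node Om}
    {a b e s p q : ℝ} (hgood : GoodAt h w a b e) (ha : 0 ≤ a) (hb : b ≤ 1) (hs0 : 0 < s)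
    (hs1 : s ≤ 1) (hR : Room w a b s) (hp : p ∈ Icc a b) (hq : q ∈ Icc a b) (hpq : p ≤ q)
    (hsmall : (q - p) / 2 + s < e) :
    ∃ z : Node Om, w.Le z ∧ Room z p q 0 ∧ Frozen h z p q := by
  have hRp := hR.val hp
  obtain ⟨E, g, hg, hnb⟩ := hgood p hp (fill w p (ha.trans hp.1) (hp.2.trans hb)
    fun ξ hξ => by linarith [hRp ξ hξ]) rfl
  obtain ⟨L, hL1, hL2, hL3⟩ := exists_low hctbl E
  have hR' : Room w p q s := hR.sub hp hq
  obtain ⟨y, hy1, hy2, hy3, hy4⟩ := ext_node (ha.trans hp.1) hpq (hq.2.trans hb) hR'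
    (half_pos hs0) (half_lt_self hs0) hs1 (w.cD.union hL1) (w.low.union hL2)
    subset_union_left
  obtain ⟨z, hz1, hz2, hz3⟩ := hg p q (s / 2 / 2) (s / 2) y (ha.trans hp.1) hpq (hq.2.trans hb)
    (by positivity) (half_lt_self (half_pos hs0)) (by linarith) hy3
  refine ⟨z, hy1.trans hz1, hz2.mono (by positivity), ?_⟩
  have hmem : ∀ (x : Fsp Om) (v : ℝ), x.1 = fillFun z v →
      x ∈ nb (fill w p (ha.trans hp.1) (hp.2.trans hb)
        fun ξ hξ => by linarith [hRp ξ hξ]) E e := by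
    intro x v hx ξ hξ
    have hξy : ξ ∈ y.D := by rw [hy2]; exact Or.inr (hL3 ξ hξ)
    have hξz : ξ ∈ z.D := hz1.1 hξy
    rw [hx, fillFun_in hξz, (hz1.2 ξ hξy).1, (hz1.2 ξ hξy).2]
    change |y.c ξ - (fillFun w p ξ).1| < e ∧ |y.d ξ - (fillFun w p ξ).2| < e
    by_cases hw : ξ ∈ w.D
    · rw [fillFun_in hw, (hy1.2 ξ hw).1, (hy1.2 ξ hw).2]
      simp only [sub_self, abs_zero]
      constructor <;> linarith
    · rw [fillFun_out hw]
      have hξE : ξ ∈ w.D ∪ L := Or.inr (hL3 ξ hξ)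
      obtain ⟨h1, h2, h3⟩ := hy4 ξ hξE hw
      rw [h1]
      constructor
      · rw [abs_of_nonneg (by linarith)]; simp only; linarith
      · simp only [sub_zero]
        rw [abs_of_nonneg (by linarith)]
        linarith
  intro x x' v v' hv hv' hx hx'
  rw [hnb x (hmem x v hx), hnb x' (hmem x' v' hx')]
  exact hz3 x x' v v' hv hv' hx hx'

lemma tendsto_fill_gen {w : Node Om} {y : ℕ → Node Om} (hy : ∀ n, (y n).D ⊆ w.D)
    (hD : ∀ ξ ∈ w.D, ∀ᶠ n in atTop, ξ ∈ (y n).D ∧ (y n).c ξ = w.c ξ ∧ (y n).d ξ = w.d ξ) (v : ℝ)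
    (p : ℕ → Fsp Om) (q : Fsp Om)
    (hp : ∀ n, (p n).1 = fillFun (y n) v) (hq : q.1 = fillFun w v) :
    Tendsto p atTop (𝓝 q) := by
  rw [isInducing_val.tendsto_nhds_iff]
  have : ((fun x : Fsp Om => x.1) ∘ p) = fun n => fillFun (y n) v := funext hp
  rw [this, hq, tendsto_pi_nhds]
  intro ξ
  apply tendsto_const_nhds.congr'
  by_cases hξ : ξ ∈ w.D
  · filter_upwards [hD ξ hξ] with n hn
    rw [fillFun_in hξ, fillFun_in hn.1, hn.2.1, hn.2.2]
  · filter_upwards with n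
    rw [fillFun_out hξ, fillFun_out (fun h => hξ (hy n h))]

/-- The locality lemma. -/
theorem locality (hctbl : ∀ ξ : Om, (Iic ξ).Countable) {h : Fsp Om → ℝ} (hc : Continuous h)
    (hloc : LocPP h) : PP h := by
  classical
  intro a b r' r u ha hab hb hr' hrr hr hR
  obtain ⟨e, w₀, s', s, he, hu0, hs1, hs2, hs3, hR0, H⟩ := exists_uniform hloc ha hb hr' hrr hR
  have hs'pos : 0 < s' := hr'.trans_le hs1
  -- subdivision
  obtain ⟨N, hN⟩ := exists_nat_gt ((b - a) / e)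
  have hNpos : 0 < (N : ℝ) := lt_of_le_of_lt (div_nonneg (by linarith) he.le) hN
  have hN0 : N ≠ 0 := by rintro rfl; simp at hNpos
  have hell : (b - a) / N < e := by
    rw [div_lt_iff₀ hNpos, mul_comm, ← div_lt_iff₀ he]
    exact hN
  set ell : ℝ := (b - a) / N with helldef
  have hell0 : 0 ≤ ell := div_nonneg (by linarith) hNpos.le
  have hellN : ell * N = b - a := by rw [helldef]; field_simp
  let t : ℕ → ℝ := fun i => a + i * ell
  have ht : ∀ i ≤ N, t i ∈ Icc a b := by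
    intro i hi
    have h1 : (i : ℝ) ≤ N := by exact_mod_cast hi
    have h2 : 0 ≤ (i : ℝ) := Nat.cast_nonneg i
    have h3 : (i : ℝ) * ell ≤ N * ell := mul_le_mul_of_nonneg_right h1 hell0
    constructor
    · simp only [t]; nlinarith
    · simp only [t]; nlinarith
  have htt : ∀ i, t (i + 1) - t i = ell := by
    intro i; simp only [t]; push_cast; ring
  -- small room
  obtain ⟨s0, hs0pos, hs0s, hs0e⟩ : ∃ s0 : ℝ, 0 < s0 ∧ s0 ≤ s' ∧ ell / 2 + s0 < e := by
    refine ⟨min s' ((e - ell / 2) / 2), lt_min hs'pos (by linarith), min_le_left _ _, ?_⟩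
    have := min_le_right s' ((e - ell / 2) / 2)
    linarith
  -- the budget
  let R : ℕ → ℝ := fun n => s' + (s - s') / 2 ^ (n + 1)
  have hRdec : ∀ n, R (n + 1) < R n := by
    intro n
    have : (0:ℝ) < (s - s') / 2 ^ (n + 1) := by
      apply div_pos (by linarith); positivity
    simp only [R]
    rw [pow_succ 2 (n + 1), ← div_div]
    linarith
  have hRpos : ∀ n, s' < R n := by
    intro n
    have : (0:ℝ) < (s - s') / 2 ^ (n + 1) := by
      apply div_pos (by linarith); positivity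
    simp only [R]; linarith
  have hR0' : R 0 < s := by simp only [R]; norm_num; linarith
  have hRle : ∀ n, R n ≤ s := by
    intro n
    induction n with
    | zero => exact hR0'.le
    | succ n ih => exact (hRdec n).le.trans ih
  -- the step
  have step : ∀ (n : ℕ) (w : Node Om), (w₀.Le w ∧ Room w a b (R n) ∧ GoodAt h w a b e) →
      ∃ (w' : Node Om) (z : ℕ → Node Om), (w₀.Le w' ∧ Room w' a b (R (n + 1)) ∧
        GoodAt h w' a b e) ∧ w.Le w' ∧ ∀ i < N, w.Le (z i) ∧ (z i).D ⊆ w'.D ∧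
          Room (z i) (t i) (t (i + 1)) 0 ∧ Frozen h (z i) (t i) (t (i + 1)) := by
    rintro n w ⟨h1, h2, h3⟩
    have key : ∀ i : ℕ, ∃ z : Node Om, i < N → w.Le z ∧ Room z (t i) (t (i + 1)) 0 ∧
        Frozen h z (t i) (t (i + 1)) := by
      intro i
      by_cases hi : i < N
      · obtain ⟨z, k1, k2, k3⟩ := freeze hctbl h3 ha hb hs0pos (by linarith)
          (h2.mono (hs0s.trans (hRpos n).le)) (ht i hi.le) (ht (i + 1) hi)
          (by linarith [htt i]) (by rw [htt i]; exact hs0e)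
        exact ⟨z, fun _ => ⟨k1, k2, k3⟩⟩
      · exact ⟨w, fun h => absurd h hi⟩
    choose z hz using key
    obtain ⟨tau, htau1, htau2⟩ := exists_between (hRdec n)
    obtain ⟨w1, k1, k2, k3, _⟩ := ext_node (u := w) (E := w.D ∪ ⋃ i, (z i).D) ha hab hb h2
      ((hs'pos.trans (hRpos (n + 1))).trans htau1) htau2 ((hRle n).trans (hs3.trans hr))
      (w.cD.union (countable_iUnion fun i => (z i).cD))
      (w.low.union (isLowerSet_iUnion fun i => (z i).low)) subset_union_left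
    obtain ⟨w2, m1, m2, m3⟩ := H w1 (R (n + 1)) tau (h1.trans k1) (hRpos _) htau1
      (htau2.le.trans (hRle n)) k3
    refine ⟨w2, z, ⟨(h1.trans k1).trans m1, m2, m3⟩, k1.trans m1, fun i hi => ?_⟩
    obtain ⟨j1, j2, j3⟩ := hz i hi
    refine ⟨j1, ?_, j2, j3⟩
    have : (z i).D ⊆ w1.D := by
      rw [k2]; exact (subset_iUnion (fun i => (z i).D) i).trans subset_union_right
    exact this.trans m1.1
  choose! nw nz hinv hnle hnz using step
  -- the start
  obtain ⟨wst, hst1, hst2, hst3⟩ := H w₀ (R 0) s (Node.Le.refl _) (hRpos 0) hR0' (le_refl _) hR0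
  let W : ℕ → Node Om := fun n => Nat.rec wst (fun n z => nw n z) n
  have hWs : ∀ n, W (n + 1) = nw n (W n) := fun n => rfl
  have inv : ∀ n, w₀.Le (W n) ∧ Room (W n) a b (R n) ∧ GoodAt h (W n) a b e := by
    intro n
    induction n with
    | zero => exact ⟨hst1, hst2, hst3⟩
    | succ n ih => rw [hWs]; exact hinv n _ ih
  have hWle : ∀ n, (W n).Le (W (n + 1)) := fun n => by rw [hWs]; exact hnle n _ (inv n)
  obtain ⟨w, hw, hD⟩ := exists_union hWle
  have hRw : Room w a b s' := room_union hw hD fun n => (inv n).2.1.mono (hRpos n).le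
  have hZ : ∀ n, ∀ i < N, (W n).Le (nz n (W n) i) ∧ (nz n (W n) i).D ⊆ w.D ∧
      Room (nz n (W n) i) (t i) (t (i + 1)) 0 ∧ Frozen h (nz n (W n) i) (t i) (t (i + 1)) := by
    intro n i hi
    obtain ⟨k1, k2, k3, k4⟩ := hnz n (W n) (inv n) i hi
    refine ⟨k1, ?_, k3, k4⟩
    rw [← hWs] at k2
    exact k2.trans (hw (n + 1)).1
  -- frozen on each small interval
  have hfr : ∀ i < N, Frozen h w (t i) (t (i + 1)) := by
    intro i hi x y v v' hv hv' hx hy
    have hi1 := ht i hi.le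
    have hi2 := ht (i + 1) hi
    have mk : ∀ (v : ℝ), v ∈ Icc (t i) (t (i + 1)) → ∀ k, ∃ p : Fsp Om,
        p.1 = fillFun (nz k (W k) i) v := by
      intro v hv k
      refine ⟨fill (nz k (W k) i) v ((ha.trans hi1.1).trans hv.1) ((hv.2.trans hi2.2).trans hb)
        ?_, rfl⟩
      intro ξ hξ
      have := (hZ k i hi).2.2.1.val hv ξ hξ
      linarith
    have hev : ∀ ξ ∈ w.D, ∀ᶠ n in atTop, ξ ∈ (nz n (W n) i).D ∧
        (nz n (W n) i).c ξ = w.c ξ ∧ (nz n (W n) i).d ξ = w.d ξ := by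
      intro ξ hξ
      rw [hD] at hξ
      obtain ⟨j, hj⟩ := mem_iUnion.1 hξ
      filter_upwards [eventually_ge_atTop j] with k hk
      have hjk : ξ ∈ (W k).D := (chain_le hWle hk).1 hj
      have z1 := (hZ k i hi).1
      refine ⟨z1.1 hjk, ?_, ?_⟩
      · rw [(z1.2 ξ hjk).1, ((hw k).2 ξ hjk).1]
      · rw [(z1.2 ξ hjk).2, ((hw k).2 ξ hjk).2]
    choose px hpx using mk v hv
    choose py hpy using mk v' hv'
    have tx := tendsto_fill_gen (fun k => (hZ k i hi).2.1) hev v px x hpx hx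
    have ty := tendsto_fill_gen (fun k => (hZ k i hi).2.1) hev v' py y hpy hy
    have tx' := (hc.tendsto x).comp tx
    have ty' := (hc.tendsto y).comp ty
    refine tendsto_nhds_unique tx' (ty'.congr fun k => ?_)
    exact (hZ k i hi).2.2.2 (py k) (px k) v' v hv' hv (hpy k) (hpx k)
  refine ⟨w, hu0.trans ((inv 0).1.trans (hw 0)), hRw.mono hs1, ?_⟩
  -- gluing: frozen on all of `[a, t i]`
  have hglue : ∀ i ≤ N, Frozen h w a (t i) := by
    intro i
    induction i with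
    | zero =>
      intro _ x y v v' hv hv' hx hy
      have e1 : t 0 = a := by simp [t]
      rw [e1] at hv hv'
      have h1 : v = a := le_antisymm hv.2 hv.1
      have h2 : v' = a := le_antisymm hv'.2 hv'.1
      subst h1; subst h2
      have : x = y := Subtype.ext (hx.trans hy.symm)
      rw [this]
    | succ i ih =>
      intro hi x y v v' hv hv' hx hy
      have hi' : i < N := hi
      have hti := ht i hi'.le
      -- the value at `t i`
      let m : Fsp Om := fill w (t i) (ha.trans hti.1) (hti.2.trans hb) (fun ξ hξ => by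
        linarith [hRw.val hti ξ hξ])
      have hm : m.1 = fillFun w (t i) := rfl
      have htle : t i ≤ t (i + 1) := by linarith [htt i]
      have hxm : ∀ (x : Fsp Om) (v : ℝ), v ∈ Icc a (t (i + 1)) → x.1 = fillFun w v →
          h x = h m := by
        intro x v hv hx
        rcases le_total v (t i) with hle | hle
        · exact ih hi'.le x m v (t i) ⟨hv.1, hle⟩ ⟨hti.1, le_refl _⟩ hx hm
        · exact hfr i hi' x m v (t i) ⟨hle, hv.2⟩ ⟨le_refl _, htle⟩ hx hm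
      rw [hxm x v hv hx, hxm y v' hv' hy]
  have hNb : t N = b := by simp only [t]; linarith [hellN]
  have := hglue N (le_refl _)
  rw [hNb] at this
  exact this

end Pool.MPd80aff
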